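import Mathlib

set_option autoImplicit false

open Filter Topology

namespace Pool.Agent.Helper695.PD

/-- linear orders of type omega_1 -/
structure IsOm1 (Ω : Type) [LinearOrder Ω] : Prop where
  wf : WellFoundedLT Ω
  cnt : ∀ a : Ω, (Set.Iio a).Countable
  bdd : ∀ s : Set Ω, s.Countable → ∃ b, ∀ a ∈ s, a < b

/-- the concrete features of the space X = closed span in l_infty(N x N) of the unit vectors,
the column indicators and the indicators of the regions below g a. -/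
structure Frame (Ω : Type) [LinearOrder Ω] (X : Type) [NormedAddCommGroup X]
    [NormedSpace ℝ X] where
  g : Ω → ℕ → ℕ
  g_lt : ∀ a b : Ω, a < b → ∀ᶠ m in atTop, g a m < g b m
  co : ℕ × ℕ → X →L[ℝ] ℝ
  dd : ℕ × ℕ → X
  cc : ℕ → X
  aa : Ω → X
  co_dd : ∀ e e', co e (dd e') = if e = e' then 1 else 0
  co_cc : ∀ e m, co e (cc m) = if e.1 = m then 1 else 0
  co_aa : ∀ e a, co e (aa a) = if e.2 ≤ g a e.1 then 1 else 0
  co_le : ∀ e x, |co e x| ≤ ‖x‖
  norm_le : ∀ (x : X) (r : ℝ), 0 ≤ r → (∀ e, |co e x| ≤ r) → ‖x‖ ≤ r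
  dense : closure ((Submodule.span ℝ (Set.range dd ∪ Set.range cc ∪ Set.range aa) :
    Submodule ℝ X) : Set X) = Set.univ

/-- pointwise (weak star) convergence of a sequence of functionals -/
def WTend {X : Type} [NormedAddCommGroup X] [NormedSpace ℝ X] (u : ℕ → X →L[ℝ] ℝ)
    (f : X →L[ℝ] ℝ) : Prop := ∀ x, Tendsto (fun n => u n x) atTop (𝓝 (f x))

/-- weak star sequentially closed linear subspaces -/
def SeqCl {X : Type} [NormedAddCommGroup X] [NormedSpace ℝ X]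
    (G : Submodule ℝ (X →L[ℝ] ℝ)) : Prop :=
  ∀ (u : ℕ → X →L[ℝ] ℝ) (f : X →L[ℝ] ℝ), (∀ n, u n ∈ G) → WTend u f → f ∈ G

def Total {X : Type} [NormedAddCommGroup X] [NormedSpace ℝ X]
    (G : Submodule ℝ (X →L[ℝ] ℝ)) : Prop := ∀ x : X, x ≠ 0 → ∃ φ ∈ G, φ x ≠ 0

/-- closed for the bounded weak star topology, in elementary terms -/
def BWClosed {X : Type} [NormedAddCommGroup X] [NormedSpace ℝ X]
    (G : Submodule ℝ (X →L[ℝ] ℝ)) : Prop :=
  ∀ (m : ℕ) (f : X →L[ℝ] ℝ), (∀ s : Finset X, ∀ ε : ℝ, 0 < ε →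
    ∃ φ ∈ G, ‖φ‖ ≤ m ∧ ∀ x ∈ s, |φ x - f x| < ε) → f ∈ G

/-- the functional `e_c`: zero on the unit vectors and columns, and `[c ≤ a]` on `aa a` -/
def IsPt {Ω : Type} [LinearOrder Ω] {X : Type} [NormedAddCommGroup X]
    [NormedSpace ℝ X] (F : Frame Ω X) (c : Ω) (f : X →L[ℝ] ℝ) : Prop :=
  (∀ e, f (F.dd e) = 0) ∧ (∀ m, f (F.cc m) = 0) ∧ (∀ a, f (F.aa a) = if c ≤ a then 1 else 0)

/-- the limit functional along a column -/
def IsCol {Ω : Type} [LinearOrder Ω] {X : Type} [NormedAddCommGroup X]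
    [NormedSpace ℝ X] (F : Frame Ω X) (k : ℕ) (f : X →L[ℝ] ℝ) : Prop :=
  (∀ e, f (F.dd e) = 0) ∧ (∀ m, f (F.cc m) = if m = k then 1 else 0) ∧ (∀ a, f (F.aa a) = 0)

/-- f and h agree on the generators below c -/
def Agree {Ω : Type} [LinearOrder Ω] {X : Type} [NormedAddCommGroup X]
    [NormedSpace ℝ X] (F : Frame Ω X) (c : Ω) (f h : X →L[ℝ] ℝ) : Prop :=
  (∀ e, f (F.dd e) = h (F.dd e)) ∧ (∀ m, f (F.cc m) = h (F.cc m)) ∧
    (∀ a, a < c → f (F.aa a) = h (F.aa a))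

end Pool.Agent.Helper695.PD
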