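import Pool.Agent.Helper695.PD.Defs

set_option autoImplicit false

open Filter Topology

namespace Pool.Agent.Helper695.PD.J1


theorem exists_om1 : ∃ (Ω : Type) (_ : LinearOrder Ω), IsOm1 Ω := by
  have hc : ∀ a : (Cardinal.ord (Cardinal.aleph 1)).ToType, (Set.Iio a).Countable := by
    intro a
    rw [Cardinal.countable_iff_lt_aleph_one]
    exact Cardinal.mk_Iio_toType_ord_lt a
  refine ⟨(Cardinal.ord (Cardinal.aleph 1)).ToType, inferInstance, ⟨inferInstance, hc, ?_⟩⟩
  intro s hs
  by_contra hcon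
  push Not at hcon
  have huniv : (Set.univ : Set (Cardinal.ord (Cardinal.aleph 1)).ToType) ⊆ ⋃ a ∈ s, Set.Iic a := by
    intro b _
    obtain ⟨a, ha, hba⟩ := hcon b
    simp only [Set.mem_iUnion]
    exact ⟨a, ha, hba⟩
  have hcount : (⋃ a ∈ s, Set.Iic a).Countable := by
    refine hs.biUnion fun a _ => ?_
    have : Set.Iic a = insert a (Set.Iio a) := by
      ext x
      simp [le_iff_eq_or_lt]
    rw [this]
    exact (hc a).insert a
  have h2 : (Set.univ : Set (Cardinal.ord (Cardinal.aleph 1)).ToType).Countable := hcount.mono huniv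
  rw [Cardinal.countable_iff_lt_aleph_one, Cardinal.mk_univ, Cardinal.mk_toType,
    Cardinal.card_ord] at h2
  exact lt_irrefl _ h2

end Pool.Agent.Helper695.PD.J1
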