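import Pool.Agent.Helper695.PD.Defs

set_option autoImplicit false

open Filter Topology

namespace Pool.Agent.Helper695.PD.J6


theorem ext_gen {Ω : Type} [LinearOrder Ω] {X : Type} [NormedAddCommGroup X]
    [NormedSpace ℝ X] (F : Frame Ω X) (f h : X →L[ℝ] ℝ)
    (h1 : ∀ e, f (F.dd e) = h (F.dd e)) (h2 : ∀ m, f (F.cc m) = h (F.cc m))
    (h3 : ∀ a, f (F.aa a) = h (F.aa a)) : f = h := by
  apply ContinuousLinearMap.ext_on (dense_iff_closure_eq.mpr F.dense)
  rintro x ((⟨e, rfl⟩ | ⟨m, rfl⟩) | ⟨a, rfl⟩)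
  · exact h1 e
  · exact h2 m
  · exact h3 a

theorem wtend_of_gen {Ω : Type} [LinearOrder Ω] {X : Type} [NormedAddCommGroup X]
    [NormedSpace ℝ X] [CompleteSpace X] (F : Frame Ω X) (u : ℕ → X →L[ℝ] ℝ) (C : ℝ)
    (hC : ∀ n, ‖u n‖ ≤ C) (ld : ℕ × ℕ → ℝ) (lc : ℕ → ℝ) (la : Ω → ℝ)
    (h1 : ∀ e, Tendsto (fun n => u n (F.dd e)) atTop (𝓝 (ld e)))
    (h2 : ∀ m, Tendsto (fun n => u n (F.cc m)) atTop (𝓝 (lc m)))
    (h3 : ∀ a, Tendsto (fun n => u n (F.aa a)) atTop (𝓝 (la a))) :
    ∃ f : X →L[ℝ] ℝ, WTend u f ∧ ‖f‖ ≤ C ∧ (∀ e, f (F.dd e) = ld e) ∧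
      (∀ m, f (F.cc m) = lc m) ∧ (∀ a, f (F.aa a) = la a) := by
  have hC0 : 0 ≤ C := (norm_nonneg _).trans (hC 0)
  have hspan : ∀ x ∈ Submodule.span ℝ (Set.range F.dd ∪ Set.range F.cc ∪ Set.range F.aa),
      ∃ l, Tendsto (fun n => u n x) atTop (𝓝 l) := by
    intro x hx
    induction hx using Submodule.span_induction with
    | mem x hx =>
      rcases hx with (⟨e, rfl⟩ | ⟨m, rfl⟩) | ⟨a, rfl⟩
      · exact ⟨_, h1 e⟩
      · exact ⟨_, h2 m⟩
      · exact ⟨_, h3 a⟩
    | zero => exact ⟨0, by simp⟩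
    | add x y _ _ hx hy =>
      obtain ⟨l, hl⟩ := hx
      obtain ⟨l', hl'⟩ := hy
      refine ⟨l + l', ?_⟩
      have := hl.add hl'
      refine this.congr fun n => ?_
      rw [map_add]
    | smul a x _ hx =>
      obtain ⟨l, hl⟩ := hx
      refine ⟨a * l, ?_⟩
      have := hl.const_mul a
      refine this.congr fun n => ?_
      rw [map_smul, smul_eq_mul]
  have hcauchy : ∀ x, CauchySeq (fun n => u n x) := by
    intro x
    rw [Metric.cauchySeq_iff]
    intro ε hε
    have hx : x ∈ closure ((Submodule.span ℝ (Set.range F.dd ∪ Set.range F.cc ∪ Set.range F.aa) :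
      Submodule ℝ X) : Set X) := by rw [F.dense]; exact Set.mem_univ x
    have hC1 : 0 < 3 * (C + 1) := by positivity
    obtain ⟨y, hy, hxy⟩ := Metric.mem_closure_iff.mp hx (ε / (3 * (C + 1))) (by positivity)
    obtain ⟨l, hl⟩ := hspan y hy
    obtain ⟨N, hN⟩ := Metric.cauchySeq_iff.mp hl.cauchySeq (ε / 3) (by positivity)
    refine ⟨N, fun m hm n hn => ?_⟩
    have h4 := hN m hm n hn
    rw [Real.dist_eq] at h4 ⊢
    rw [dist_eq_norm, lt_div_iff₀ hC1] at hxy
    have h5 : ∀ k, |u k (x - y)| ≤ C * ‖x - y‖ := by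
      intro k
      have h6 := (u k).le_opNorm (x - y)
      rw [Real.norm_eq_abs] at h6
      exact h6.trans (mul_le_mul_of_nonneg_right (hC k) (norm_nonneg _))
    have h7 : u m x - u n x = u m (x - y) + (u m y - u n y) - u n (x - y) := by
      rw [map_sub, map_sub]
      ring
    have h8 := h5 m
    have h9 := h5 n
    rw [h7]
    have h10 : |u m (x - y) + (u m y - u n y) - u n (x - y)| ≤
        |u m (x - y)| + |u m y - u n y| + |u n (x - y)| := by
      refine (abs_sub _ _).trans ?_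
      exact add_le_add (abs_add_le _ _) le_rfl
    have h11 : 0 ≤ ‖x - y‖ := norm_nonneg _
    nlinarith
  choose L hL using fun x => cauchySeq_tendsto_of_complete (hcauchy x)
  let f0 : X →ₗ[ℝ] ℝ :=
    { toFun := L
      map_add' := by
        intro x y
        refine tendsto_nhds_unique (hL (x + y)) (((hL x).add (hL y)).congr fun n => ?_)
        rw [map_add]
      map_smul' := by
        intro a x
        refine tendsto_nhds_unique (hL (a • x)) (((hL x).const_mul a).congr fun n => ?_)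
        rw [map_smul, smul_eq_mul] }
  have hbound : ∀ x, ‖f0 x‖ ≤ C * ‖x‖ := by
    intro x
    refine le_of_tendsto (hL x).norm (Eventually.of_forall fun n => ?_)
    exact ((u n).le_opNorm x).trans (mul_le_mul_of_nonneg_right (hC n) (norm_nonneg _))
  have hval : ∀ x, f0.mkContinuous C hbound x = L x := fun x => rfl
  refine ⟨f0.mkContinuous C hbound, ?_, LinearMap.mkContinuous_norm_le _ hC0 _, ?_, ?_, ?_⟩
  · intro x
    rw [hval]
    exact hL x
  · intro e
    rw [hval]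
    exact tendsto_nhds_unique (hL _) (h1 e)
  · intro m
    rw [hval]
    exact tendsto_nhds_unique (hL _) (h2 m)
  · intro a
    rw [hval]
    exact tendsto_nhds_unique (hL _) (h3 a)

end Pool.Agent.Helper695.PD.J6
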