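import Pool.Agent.Helper695.PD.Defs
import Pool.Agent.Helper695.PD.J6

set_option autoImplicit false

open Filter Topology

namespace Pool.Agent.Helper695.PD.J10A

open Pool.Agent.Helper695.PD.J6





theorem co_norm7261 {Ω : Type} [LinearOrder Ω] {X : Type} [NormedAddCommGroup X]
    [NormedSpace ℝ X] (F : Frame Ω X) (e : ℕ × ℕ) : ‖F.co e‖ ≤ 1 := by
  apply ContinuousLinearMap.opNorm_le_bound _ zero_le_one
  intro x
  rw [one_mul, Real.norm_eq_abs]
  exact F.co_le e x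

theorem ispt_ext7261 {Ω : Type} [LinearOrder Ω] {X : Type} [NormedAddCommGroup X]
    [NormedSpace ℝ X] (F : Frame Ω X) (c : Ω) (f h : X →L[ℝ] ℝ) (hf : IsPt F c f)
    (hh : IsPt F c h) : f = h := by
  obtain ⟨f1, f2, f3⟩ := hf
  obtain ⟨h1, h2, h3⟩ := hh
  apply ext_gen F
  · intro e; rw [f1, h1]
  · intro m; rw [f2, h2]
  · intro a; rw [f3, h3]

theorem wt_aux7261 {Ω : Type} [LinearOrder Ω] {X : Type} [NormedAddCommGroup X]
    [NormedSpace ℝ X] [CompleteSpace X] (F : Frame Ω X) (c : Ω)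
    (e : ℕ → ℕ × ℕ) (h0 : ∀ x, ∀ᶠ k in atTop, e k ≠ x)
    (h1 : ∀ m, ∀ᶠ k in atTop, (e k).1 ≠ m)
    (h2 : ∀ a, c ≤ a → ∀ᶠ k in atTop, (e k).2 ≤ F.g a (e k).1)
    (h3 : ∀ a, a < c → ∀ᶠ k in atTop, ¬ (e k).2 ≤ F.g a (e k).1) :
    ∃ f : X →L[ℝ] ℝ, WTend (fun k => F.co (e k)) f ∧ ‖f‖ ≤ 1 ∧ IsPt F c f := by
  obtain ⟨f, hf1, hf2, hf3, hf4, hf5⟩ := wtend_of_gen F (fun k => F.co (e k)) 1
    (fun k => co_norm7261 F (e k)) (fun _ => 0) (fun _ => 0) (fun a => if c ≤ a then 1 else 0)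
    (by
      intro x
      apply tendsto_const_nhds.congr'
      filter_upwards [h0 x] with k hk
      rw [F.co_dd, if_neg hk])
    (by
      intro m
      apply tendsto_const_nhds.congr'
      filter_upwards [h1 m] with k hk
      rw [F.co_cc, if_neg hk])
    (by
      intro a
      apply tendsto_const_nhds.congr'
      by_cases hca : c ≤ a
      · filter_upwards [h2 a hca] with k hk
        rw [F.co_aa, if_pos hk, if_pos hca]
      · filter_upwards [h3 a (not_le.1 hca)] with k hk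
        rw [F.co_aa, if_neg hk, if_neg hca])
  exact ⟨f, hf1, hf2, hf3, hf4, hf5⟩

theorem wtend_to_pt {Ω : Type} [LinearOrder Ω] {X : Type} [NormedAddCommGroup X]
    [NormedSpace ℝ X] [CompleteSpace X] (F : Frame Ω X) (c : Ω) (p : X →L[ℝ] ℝ)
    (hp : IsPt F c p) (e : ℕ → ℕ × ℕ) (h0 : ∀ x, ∀ᶠ k in atTop, e k ≠ x)
    (h1 : ∀ m, ∀ᶠ k in atTop, (e k).1 ≠ m)
    (h2 : ∀ a, c ≤ a → ∀ᶠ k in atTop, (e k).2 ≤ F.g a (e k).1)
    (h3 : ∀ a, a < c → ∀ᶠ k in atTop, ¬ (e k).2 ≤ F.g a (e k).1) :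
    WTend (fun k => F.co (e k)) p := by
  obtain ⟨f, hf1, hf2, hf3⟩ := wt_aux7261 F c e h0 h1 h2 h3
  rw [ispt_ext7261 F c p f hp hf3]
  exact hf1

theorem exists_pt {Ω : Type} [LinearOrder Ω] (hO : IsOm1 Ω) {X : Type} [NormedAddCommGroup X]
    [NormedSpace ℝ X] [CompleteSpace X] (F : Frame Ω X) (c : Ω) :
    ∃ p : X →L[ℝ] ℝ, IsPt F c p ∧ ‖p‖ ≤ 1 := by
  have : Nonempty Ω := ⟨c⟩
  obtain ⟨b, hb⟩ := Set.countable_iff_exists_subset_range.1 (hO.cnt c)
  have hm : ∀ k : ℕ, ∃ m : ℕ, (∀ i ∈ Set.Iic k, b i < c → F.g (b i) m < F.g c m) ∧ k ≤ m := by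
    intro k
    have h1 : ∀ᶠ m in atTop, ∀ i ∈ Set.Iic k, b i < c → F.g (b i) m < F.g c m := by
      rw [eventually_all_finite (Set.finite_Iic k)]
      intro i _
      by_cases hi : b i < c
      · filter_upwards [F.g_lt (b i) c hi] with m hm _
        exact hm
      · exact Eventually.of_forall (fun m h => absurd h hi)
    exact (h1.and (eventually_ge_atTop k)).exists
  choose m hm1 hm2 using hm
  have hmt : Tendsto m atTop atTop := tendsto_atTop_mono hm2 tendsto_id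
  have hne : ∀ m', ∀ᶠ k in atTop, m k ≠ m' := by
    intro m'
    filter_upwards [eventually_gt_atTop m'] with k hk
    have := hm2 k
    omega
  obtain ⟨f, -, hf2, hf3⟩ := wt_aux7261 F c (fun k => (m k, F.g c (m k)))
    (by
      intro x
      filter_upwards [hne x.1] with k hk h
      exact hk (congrArg Prod.fst h))
    hne
    (by
      intro a ha
      rcases ha.eq_or_lt with h | h
      · rw [← h]
        exact Eventually.of_forall (fun k => le_rfl)
      · filter_upwards [hmt.eventually (F.g_lt c a h)] with k hk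
        exact hk.le)
    (by
      intro a ha
      obtain ⟨i, hi⟩ := hb ha
      filter_upwards [eventually_ge_atTop i] with k hk
      rw [not_le, ← hi]
      exact hm1 k i hk (by rw [hi]; exact ha))
  exact ⟨f, hf3, hf2⟩

theorem pt_wtend {Ω : Type} [LinearOrder Ω] (hO : IsOm1 Ω) {X : Type} [NormedAddCommGroup X]
    [NormedSpace ℝ X] [CompleteSpace X] (F : Frame Ω X) (b : ℕ → Ω) (hb : StrictMono b)
    (c : Ω) (hbc : ∀ k, b k < c) (hcof : ∀ a, a < c → ∃ k, a < b k)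
    (q : ℕ → X →L[ℝ] ℝ) (hq : ∀ k, IsPt F (b k) (q k)) (p : X →L[ℝ] ℝ) (hp : IsPt F c p) :
    WTend q p := by
  have hq1 : ∀ k, ‖q k‖ ≤ 1 := by
    intro k
    obtain ⟨p', hp', hn⟩ := exists_pt hO F (b k)
    rw [ispt_ext7261 F (b k) (q k) p' (hq k) hp']
    exact hn
  obtain ⟨f, hf1, hf2, hf3, hf4, hf5⟩ := wtend_of_gen F q 1 hq1 (fun _ => 0) (fun _ => 0)
    (fun a => if c ≤ a then 1 else 0)
    (by
      intro x
      simp only [(hq _).1]
      exact tendsto_const_nhds)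
    (by
      intro m
      simp only [(hq _).2.1]
      exact tendsto_const_nhds)
    (by
      intro a
      apply tendsto_const_nhds.congr'
      by_cases hca : c ≤ a
      · refine Eventually.of_forall (fun k => ?_)
        show (if c ≤ a then (1 : ℝ) else 0) = q k (F.aa a)
        rw [(hq k).2.2, if_pos hca, if_pos ((hbc k).le.trans hca)]
      · obtain ⟨k0, hk0⟩ := hcof a (not_le.1 hca)
        filter_upwards [eventually_ge_atTop k0] with k hk
        rw [(hq k).2.2, if_neg hca, if_neg (not_le.2 (hk0.trans_le (hb.monotone hk)))])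
  rw [ispt_ext7261 F c p f hp ⟨hf3, hf4, hf5⟩]
  exact hf1

end Pool.Agent.Helper695.PD.J10A
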