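import Pool.Agent.Helper695.PD.Defs
import Pool.Agent.Helper695.PD.J6

set_option autoImplicit false

open Filter Topology

namespace Pool.Agent.Helper695.PD.J10B

open Pool.Agent.Helper695.PD.J6





theorem norm_co_le {Ω : Type} [LinearOrder Ω] {X : Type} [NormedAddCommGroup X]
    [NormedSpace ℝ X] (F : Frame Ω X) (e : ℕ × ℕ) : ‖F.co e‖ ≤ 1 := by
  apply ContinuousLinearMap.opNorm_le_bound _ zero_le_one
  intro x
  rw [one_mul, Real.norm_eq_abs]
  exact F.co_le e x

theorem isCol_unique {Ω : Type} [LinearOrder Ω] {X : Type} [NormedAddCommGroup X]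
    [NormedSpace ℝ X] (F : Frame Ω X) (k : ℕ) (f h : X →L[ℝ] ℝ) (hf : IsCol F k f)
    (hh : IsCol F k h) : f = h := by
  apply ext_gen F
  · intro e; rw [hf.1, hh.1]
  · intro m; rw [hf.2.1, hh.2.1]
  · intro a; rw [hf.2.2, hh.2.2]

theorem tendsto_of_ev {v : ℕ → ℝ} {l : ℝ} (h : ∀ᶠ n in atTop, v n = l) :
    Tendsto v atTop (𝓝 l) :=
  tendsto_const_nhds.congr' (h.mono fun _ hn => hn.symm)

theorem col_lim {Ω : Type} [LinearOrder Ω] {X : Type} [NormedAddCommGroup X]
    [NormedSpace ℝ X] [CompleteSpace X] (F : Frame Ω X) (m : ℕ) :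
    ∃ f : X →L[ℝ] ℝ, WTend (fun j => F.co (m, j)) f ∧ ‖f‖ ≤ 1 ∧ IsCol F m f := by
  obtain ⟨f, h1, h2, h3, h4, h5⟩ := wtend_of_gen F (fun j => F.co (m, j)) 1
    (fun j => norm_co_le F (m, j)) (fun _ => 0) (fun m' => if m' = m then 1 else 0) (fun _ => 0)
    (by
      intro e
      apply tendsto_of_ev
      filter_upwards [eventually_gt_atTop e.2] with j hj
      rw [F.co_dd, if_neg]
      intro h
      rw [← h] at hj
      exact lt_irrefl _ hj)
    (by
      intro m'
      apply tendsto_of_ev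
      refine Eventually.of_forall (fun j => ?_)
      rw [F.co_cc]
      by_cases h : m = m'
      · rw [if_pos h, if_pos h.symm]
      · rw [if_neg h, if_neg (Ne.symm h)])
    (by
      intro a
      apply tendsto_of_ev
      filter_upwards [eventually_gt_atTop (F.g a m)] with j hj
      rw [F.co_aa, if_neg (not_le.2 hj)])
  exact ⟨f, h1, h2, h3, h4, h5⟩

theorem wtend_to_col {Ω : Type} [LinearOrder Ω] {X : Type} [NormedAddCommGroup X]
    [NormedSpace ℝ X] [CompleteSpace X] (F : Frame Ω X) (m : ℕ) (p : X →L[ℝ] ℝ)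
    (hp : IsCol F m p) : WTend (fun j => F.co (m, j)) p := by
  obtain ⟨f, h1, -, h3⟩ := col_lim F m
  rw [isCol_unique F m p f hp h3]
  exact h1

theorem exists_col {Ω : Type} [LinearOrder Ω] {X : Type} [NormedAddCommGroup X]
    [NormedSpace ℝ X] [CompleteSpace X] (F : Frame Ω X) (m : ℕ) :
    ∃ p : X →L[ℝ] ℝ, IsCol F m p ∧ ‖p‖ ≤ 1 := by
  obtain ⟨f, -, h2, h3⟩ := col_lim F m
  exact ⟨f, h3, h2⟩

theorem wtend_to_zero {Ω : Type} [LinearOrder Ω] {X : Type} [NormedAddCommGroup X]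
    [NormedSpace ℝ X] [CompleteSpace X] (F : Frame Ω X) (e : ℕ → ℕ × ℕ)
    (h0 : ∀ x, ∀ᶠ k in atTop, e k ≠ x) (h1 : ∀ m, ∀ᶠ k in atTop, (e k).1 ≠ m)
    (h2 : ∀ a, ∀ᶠ k in atTop, ¬ (e k).2 ≤ F.g a (e k).1) :
    WTend (fun k => F.co (e k)) 0 := by
  obtain ⟨f, k1, -, k3, k4, k5⟩ := wtend_of_gen F (fun k => F.co (e k)) 1
    (fun k => norm_co_le F (e k)) (fun _ => 0) (fun _ => 0) (fun _ => 0)
    (by
      intro e'
      apply tendsto_of_ev
      filter_upwards [h0 e'] with k hk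
      rw [F.co_dd, if_neg hk])
    (by
      intro m'
      apply tendsto_of_ev
      filter_upwards [h1 m'] with k hk
      rw [F.co_cc, if_neg hk])
    (by
      intro a
      apply tendsto_of_ev
      filter_upwards [h2 a] with k hk
      rw [F.co_aa, if_neg hk])
  have hf : f = 0 := ext_gen F f 0 k3 k4 k5
  rw [← hf]
  exact k1

theorem col_wtend_zero {Ω : Type} [LinearOrder Ω] {X : Type} [NormedAddCommGroup X]
    [NormedSpace ℝ X] [CompleteSpace X] (F : Frame Ω X)
    (q : ℕ → X →L[ℝ] ℝ) (hq : ∀ k, IsCol F k (q k)) : WTend q 0 := by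
  obtain ⟨f, k1, -, k3, k4, k5⟩ := wtend_of_gen F q 1
    (fun k => by
      obtain ⟨p, hp1, hp2⟩ := exists_col F k
      rw [isCol_unique F k (q k) p (hq k) hp1]
      exact hp2) (fun _ => 0) (fun _ => 0) (fun _ => 0)
    (by
      intro e'
      apply tendsto_of_ev
      exact Eventually.of_forall (fun k => (hq k).1 e'))
    (by
      intro m'
      apply tendsto_of_ev
      filter_upwards [eventually_gt_atTop m'] with k hk
      rw [(hq k).2.1, if_neg hk.ne])
    (by
      intro a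
      apply tendsto_of_ev
      exact Eventually.of_forall (fun k => (hq k).2.2 a))
  have hf : f = 0 := ext_gen F f 0 k3 k4 k5
  rw [← hf]
  exact k1

end Pool.Agent.Helper695.PD.J10B
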