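import Pool.Agent.Helper695.PD.Defs

set_option autoImplicit false

open Filter Topology

namespace Pool.Agent.Helper695.PD.J8


theorem lemQ7257 {Ω : Type} [LinearOrder Ω] {X : Type} [NormedAddCommGroup X]
    [NormedSpace ℝ X] (F : Frame Ω X) (z : X →L[ℝ] ℝ) (hz : ∀ e, z (F.dd e) = 0)
    (x : X) (r : ℝ) (hr : 0 ≤ r) (T : Set (ℕ × ℕ)) (hT : T.Finite)
    (h : ∀ e, e ∉ T → |F.co e x| ≤ r) : |z x| ≤ ‖z‖ * r := by
  classical
  set x' : X := x - ∑ e ∈ hT.toFinset, (F.co e x) • F.dd e with hx'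
  have h1 : z x' = z x := by
    rw [hx', map_sub, map_sum]
    simp [hz]
  have h2 : ‖x'‖ ≤ r := by
    apply F.norm_le x' r hr
    intro e
    have h3 : F.co e x' = F.co e x - ∑ e' ∈ hT.toFinset, F.co e' x * (if e = e' then 1 else 0) := by
      rw [hx', map_sub, map_sum]
      simp only [map_smul, F.co_dd, smul_eq_mul]
    rw [h3]
    by_cases he : e ∈ T
    · have : ∑ e' ∈ hT.toFinset, F.co e' x * (if e = e' then 1 else 0) = F.co e x := by
        simp [he]
      rw [this, sub_self, abs_zero]; exact hr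
    · have : ∑ e' ∈ hT.toFinset, F.co e' x * (if e = e' then 1 else 0) = 0 := by
        apply Finset.sum_eq_zero
        intro e' he'
        have hne : e ≠ e' := by
          rintro rfl
          exact he (hT.mem_toFinset.1 he')
        simp [hne]
      rw [this, sub_zero]; exact h e he
  calc |z x| = ‖z x'‖ := by rw [h1, Real.norm_eq_abs]
    _ ≤ ‖z‖ * ‖x'‖ := z.le_opNorm x'
    _ ≤ ‖z‖ * r := mul_le_mul_of_nonneg_left h2 (norm_nonneg z)

theorem finT7257 {Ω : Type} [LinearOrder Ω] {X : Type} [NormedAddCommGroup X]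
    [NormedSpace ℝ X] (F : Frame Ω X) (a b : Ω) (hab : a < b) :
    {e : ℕ × ℕ | e.2 ≤ F.g a e.1 ∧ ¬ e.2 ≤ F.g b e.1}.Finite := by
  obtain ⟨M, hM⟩ := eventually_atTop.1 (F.g_lt a b hab)
  refine Set.Finite.subset
    (Set.Finite.biUnion (Set.finite_Iio M) (fun m _ => (Set.finite_singleton m).prod
      (Set.finite_Iic (F.g a m)))) ?_
  rintro ⟨m, j⟩ ⟨h1, h2⟩
  simp only [Set.mem_iUnion]
  refine ⟨m, ?_, ?_⟩
  · by_contra hm
    simp only [Set.mem_Iio, not_lt] at hm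
    have := hM m hm
    simp only at h1 h2
    omega
  · simp only [Set.mem_prod, Set.mem_singleton_iff, Set.mem_Iic, true_and]
    exact h1

theorem ev_const {Ω : Type} [LinearOrder Ω] (hO : IsOm1 Ω) {X : Type} [NormedAddCommGroup X]
    [NormedSpace ℝ X] (F : Frame Ω X) (z : X →L[ℝ] ℝ) (hz : ∀ e, z (F.dd e) = 0) :
    ∃ (c : Ω) (t : ℝ), ∀ a, c ≤ a → z (F.aa a) = t := by
  classical
  by_contra hcon
  push Not at hcon
  -- a uniform oscillation
  have hosc : ∃ ε : ℝ, 0 < ε ∧ ∀ c : Ω, ∃ a b, c ≤ a ∧ a < b ∧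
      ε < |z (F.aa b) - z (F.aa a)| := by
    by_contra hno
    push Not at hno
    have h1 : ∀ n : ℕ, ∃ c : Ω, ∀ a b, c ≤ a → a < b →
        |z (F.aa b) - z (F.aa a)| ≤ 1 / ((n : ℝ) + 1) := by
      intro n
      exact hno (1 / ((n : ℝ) + 1)) (by positivity)
    choose c hc using h1
    obtain ⟨d, hd⟩ := hO.bdd (Set.range c) (Set.countable_range c)
    obtain ⟨a, ha, hne⟩ := hcon d (z (F.aa d))
    rcases eq_or_lt_of_le ha with h | h
    · exact hne (by rw [h])
    · apply hne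
      have h2 : ∀ n : ℕ, |z (F.aa a) - z (F.aa d)| ≤ 1 / ((n : ℝ) + 1) := fun n =>
        hc n d a (hd (c n) ⟨n, rfl⟩).le h
      have h3 : |z (F.aa a) - z (F.aa d)| ≤ 0 :=
        ge_of_tendsto' tendsto_one_div_add_atTop_nhds_zero_nat h2
      have h4 := abs_nonpos_iff.1 h3
      linarith
  obtain ⟨ε, hε, hosc⟩ := hosc
  have hstep : ∀ c : Ω, ∃ p : Ω × Ω, c < p.1 ∧ p.1 < p.2 ∧
      ε < |z (F.aa p.2) - z (F.aa p.1)| := by
    intro c
    obtain ⟨c', hc'⟩ := hO.bdd {c} (Set.countable_singleton c)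
    obtain ⟨a, b, h1, h2, h3⟩ := hosc c'
    exact ⟨(a, b), lt_of_lt_of_le (hc' c rfl) h1, h2, h3⟩
  choose φ hφ1 hφ2 hφ3 using hstep
  obtain ⟨c0, -⟩ := hO.bdd ∅ Set.countable_empty
  let P : ℕ → Ω × Ω := fun n => Nat.rec (φ c0) (fun _ p => φ p.2) n
  have hPs : ∀ n, P (n + 1) = φ (P n).2 := fun n => rfl
  have hP1 : ∀ n, (P n).1 < (P n).2 := by
    intro n
    cases n with
    | zero => exact hφ2 c0
    | succ n => rw [hPs]; exact hφ2 _
  have hP2 : ∀ n, ε < |z (F.aa (P n).2) - z (F.aa (P n).1)| := by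
    intro n
    cases n with
    | zero => exact hφ3 c0
    | succ n => rw [hPs]; exact hφ3 _
  have hP3 : ∀ n, (P n).2 < (P (n + 1)).1 := by
    intro n
    rw [hPs]; exact hφ1 _
  obtain ⟨N, hN⟩ := exists_nat_gt (‖z‖ / ε)
  let s : ℕ → ℝ := fun i => if 0 ≤ z (F.aa (P i).2) - z (F.aa (P i).1) then 1 else -1
  have hs : ∀ i, |s i| = 1 := by
    intro i
    simp only [s]
    split_ifs <;> simp
  have hs2 : ∀ i, s i * (z (F.aa (P i).2) - z (F.aa (P i).1)) =
      |z (F.aa (P i).2) - z (F.aa (P i).1)| := by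
    intro i
    simp only [s]
    split_ifs with h
    · rw [abs_of_nonneg h, one_mul]
    · rw [abs_of_neg (not_le.1 h)]; ring
  let y : X := ∑ i ∈ Finset.range N, s i • (F.aa (P i).2 - F.aa (P i).1)
  let T : Set (ℕ × ℕ) := ⋃ i ∈ Set.Iio N,
    ({e : ℕ × ℕ | e.2 ≤ F.g (P i).1 e.1 ∧ ¬ e.2 ≤ F.g (P i).2 e.1} ∪
      {e : ℕ × ℕ | e.2 ≤ F.g (P i).2 e.1 ∧ ¬ e.2 ≤ F.g (P (i+1)).1 e.1})
  have hT : T.Finite := Set.Finite.biUnion (Set.finite_Iio N) fun i _ =>
    (finT7257 F _ _ (hP1 i)).union (finT7257 F _ _ (hP3 i))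
  have hy : ∀ e, e ∉ T → |F.co e y| ≤ 1 := by
    intro e he
    let u : ℕ → ℝ := fun i => if e.2 ≤ F.g (P i).1 e.1 then 1 else 0
    let v : ℕ → ℝ := fun i => if e.2 ≤ F.g (P i).2 e.1 then 1 else 0
    have huv : ∀ i, i < N → u i ≤ v i ∧ v i ≤ u (i + 1) := by
      intro i hi
      have he' : ¬ (e.2 ≤ F.g (P i).1 e.1 ∧ ¬ e.2 ≤ F.g (P i).2 e.1) ∧
          ¬ (e.2 ≤ F.g (P i).2 e.1 ∧ ¬ e.2 ≤ F.g (P (i+1)).1 e.1) := by
        constructor
        · intro h
          exact he (Set.mem_biUnion (show i ∈ Set.Iio N from hi) (Or.inl h))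
        · intro h
          exact he (Set.mem_biUnion (show i ∈ Set.Iio N from hi) (Or.inr h))
      simp only [u, v]
      constructor
      · by_cases h1 : e.2 ≤ F.g (P i).1 e.1
        · have h2 : e.2 ≤ F.g (P i).2 e.1 := by
            by_contra h; exact he'.1 ⟨h1, h⟩
          rw [if_pos h1, if_pos h2]
        · rw [if_neg h1]; split_ifs <;> norm_num
      · by_cases h1 : e.2 ≤ F.g (P i).2 e.1
        · have h2 : e.2 ≤ F.g (P (i+1)).1 e.1 := by
            by_contra h; exact he'.2 ⟨h1, h⟩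
          rw [if_pos h1, if_pos h2]
        · rw [if_neg h1]; split_ifs <;> norm_num
    have hco : F.co e y = ∑ i ∈ Finset.range N, s i * (v i - u i) := by
      simp only [y, map_sum, map_smul, map_sub, F.co_aa, smul_eq_mul, u, v]
    rw [hco]
    calc |∑ i ∈ Finset.range N, s i * (v i - u i)|
        ≤ ∑ i ∈ Finset.range N, |s i * (v i - u i)| := Finset.abs_sum_le_sum_abs _ _
      _ ≤ ∑ i ∈ Finset.range N, (u (i + 1) - u i) := by
          apply Finset.sum_le_sum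
          intro i hi
          have hi' := huv i (Finset.mem_range.1 hi)
          rw [abs_mul, hs, one_mul, abs_of_nonneg (by linarith [hi'.1])]
          linarith [hi'.2]
      _ = u N - u 0 := Finset.sum_range_sub u N
      _ ≤ 1 := by
          simp only [u]
          split_ifs <;> norm_num
  have hz1 := lemQ7257 F z hz y 1 zero_le_one T hT hy
  have hz2 : z y = ∑ i ∈ Finset.range N, |z (F.aa (P i).2) - z (F.aa (P i).1)| := by
    simp only [y, map_sum, map_smul, map_sub, smul_eq_mul, hs2]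
  have hz3 : (N : ℝ) * ε ≤ z y := by
    rw [hz2]
    calc (N : ℝ) * ε = ∑ i ∈ Finset.range N, ε := by simp
      _ ≤ _ := Finset.sum_le_sum fun i _ => (hP2 i).le
  have hz4 : (N : ℝ) * ε ≤ ‖z‖ := by
    have := le_abs_self (z y)
    linarith
  rw [div_lt_iff₀ hε] at hN
  linarith

end Pool.Agent.Helper695.PD.J8
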