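import Pool.Agent.Helper695.PD.Defs
import Pool.Agent.Helper695.PD.J6
import Pool.Agent.Helper695.PD.J8

set_option autoImplicit false

open Filter Topology

namespace Pool.Agent.Helper695.PD.J11

open Pool.Agent.Helper695.PD.J6
open Pool.Agent.Helper695.PD.J8







theorem lemmaA {Ω : Type} [LinearOrder Ω] (hO : IsOm1 Ω) {X : Type} [NormedAddCommGroup X]
    [NormedSpace ℝ X] [CompleteSpace X] (F : Frame Ω X) (G : Submodule ℝ (X →L[ℝ] ℝ))
    (hG : SeqCl G) (f : X →L[ℝ] ℝ) (C : ℝ)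
    (H : ∀ c : Ω, ∃ h ∈ G, ‖h‖ ≤ C ∧ Agree F c h f)
    (U : Set Ω) (hU : ∀ c, ∃ b ∈ U, c < b) (c₀ : Ω) :
    ∃ c, c₀ < c ∧ (∃ b : ℕ → Ω, StrictMono b ∧ (∀ k, b k ∈ U) ∧ (∀ k, b k < c) ∧
      (∀ a, a < c → ∃ k, a < b k)) ∧
      ∃ t : ℝ, ∀ p, IsPt F c p → f + t • p ∈ G := by
  classical
  choose h hhG hhC hhA using H
  have hz : ∀ c : Ω, ∀ e, (h c - f) (F.dd e) = 0 := by
    intro c e
    have := (hhA c).1 e
    simp [this]
  have hev : ∀ c : Ω, ∃ (d : Ω) (t : ℝ), ∀ a, d ≤ a → (h c - f) (F.aa a) = t :=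
    fun c => ev_const hO F (h c - f) (hz c)
  choose d τ hτ using hev
  choose ub hubU hub using hU
  obtain ⟨γ, hγ0, hγS⟩ : ∃ γ : ℕ → Ω, γ 0 = c₀ ∧
      ∀ k, γ (k + 1) = ub (max (max (γ k) (d (γ k))) c₀) :=
    ⟨fun k => Nat.rec c₀ (fun _ g => ub (max (max g (d g)) c₀)) k, rfl, fun _ => rfl⟩
  have hg1 : ∀ k, γ k < γ (k + 1) := by
    intro k
    rw [hγS]
    exact lt_of_le_of_lt ((le_max_left _ _).trans (le_max_left _ _)) (hub _)
  have hg2 : ∀ k, d (γ k) < γ (k + 1) := by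
    intro k
    rw [hγS]
    exact lt_of_le_of_lt ((le_max_right _ _).trans (le_max_left _ _)) (hub _)
  have hg3 : ∀ k, c₀ < γ (k + 1) := by
    intro k
    rw [hγS]
    exact lt_of_le_of_lt (le_max_right _ _) (hub _)
  have hmono : StrictMono γ := strictMono_nat_of_lt_succ hg1
  -- the least strict upper bound
  obtain ⟨c, hc1, hc2⟩ : ∃ c : Ω, (∀ k, γ (k + 1) < c) ∧ ∀ a, a < c → ∃ k, a < γ (k + 1) := by
    have hne : ({x : Ω | ∀ k, γ (k + 1) < x}).Nonempty := by
      obtain ⟨b, hb⟩ := hO.bdd (Set.range (fun k => γ (k + 1))) (Set.countable_range _)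
      exact ⟨b, fun k => hb _ ⟨k, rfl⟩⟩
    refine ⟨hO.wf.wf.min _ hne, hO.wf.wf.min_mem _ hne, ?_⟩
    intro a ha
    have hna : a ∉ {x : Ω | ∀ k, γ (k + 1) < x} := fun hmem =>
      hO.wf.wf.not_lt_min _ hmem ha
    simp only [Set.mem_setOf_eq, not_forall, not_lt] at hna
    obtain ⟨k, hk⟩ := hna
    exact ⟨k + 1, lt_of_le_of_lt hk (hg1 _)⟩
  have haa : ∀ a, ‖F.aa a‖ ≤ 1 := by
    intro a
    apply F.norm_le _ _ zero_le_one
    intro e
    rw [F.co_aa]
    split_ifs <;> simp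
  have ht : ∀ k, τ (γ k) ∈ Set.Icc (-(C + ‖f‖)) (C + ‖f‖) := by
    intro k
    rw [Set.mem_Icc, ← abs_le]
    have h1 := hτ (γ k) (d (γ k)) le_rfl
    rw [← h1, ← Real.norm_eq_abs]
    calc ‖(h (γ k) - f) (F.aa (d (γ k)))‖ ≤ ‖h (γ k) - f‖ * ‖F.aa (d (γ k))‖ :=
          ContinuousLinearMap.le_opNorm _ _
      _ ≤ ‖h (γ k) - f‖ * 1 := mul_le_mul_of_nonneg_left (haa _) (norm_nonneg _)
      _ = ‖h (γ k) - f‖ := mul_one _
      _ ≤ ‖h (γ k)‖ + ‖f‖ := norm_sub_le _ _
      _ ≤ C + ‖f‖ := by linarith [hhC (γ k)]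
  obtain ⟨t, _, φ, hφ, htend⟩ := isCompact_Icc.tendsto_subseq ht
  refine ⟨c, (hg3 0).trans (hc1 0), ⟨fun k => γ (k + 1), ?_, ?_, hc1, hc2⟩, t, ?_⟩
  · intro i j hij
    exact hmono (by omega)
  · intro k
    change γ (k + 1) ∈ U
    rw [hγS]
    exact hubU _
  · intro p hp
    obtain ⟨L, hL1, _, hL3, hL4, hL5⟩ := wtend_of_gen F (fun n => h (γ (φ n))) C
      (fun n => hhC _) (fun e => f (F.dd e)) (fun m => f (F.cc m))
      (fun a => if a < c then f (F.aa a) else f (F.aa a) + t)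
      (by
        intro e
        have : (fun n => h (γ (φ n)) (F.dd e)) = fun _ => f (F.dd e) := by
          funext n; exact (hhA _).1 e
        rw [this]
        exact tendsto_const_nhds)
      (by
        intro m
        have : (fun n => h (γ (φ n)) (F.cc m)) = fun _ => f (F.cc m) := by
          funext n; exact (hhA _).2.1 m
        rw [this]
        exact tendsto_const_nhds)
      (by
        intro a
        by_cases hac : a < c
        · simp only [hac, if_true]
          obtain ⟨k0, hk0⟩ := hc2 a hac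
          apply tendsto_const_nhds.congr'
          filter_upwards [eventually_ge_atTop (k0 + 1)] with n hn
          have h1 : a < γ (φ n) :=
            lt_of_lt_of_le hk0 (hmono.monotone (hn.trans (hφ.id_le n)))
          exact ((hhA (γ (φ n))).2.2 a h1).symm
        · simp only [hac, if_false]
          have : (fun n => h (γ (φ n)) (F.aa a)) = fun n => f (F.aa a) + τ (γ (φ n)) := by
            funext n
            have h1 := hτ (γ (φ n)) a
              ((hg2 _).le.trans ((hc1 _).le.trans (not_lt.1 hac)))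
            rw [← h1]
            simp
          rw [this]
          exact tendsto_const_nhds.add htend)
    have hLf : L = f + t • p := by
      apply ext_gen F
      · intro e
        rw [hL3]
        simp [hp.1 e]
      · intro m
        rw [hL4]
        simp [hp.2.1 m]
      · intro a
        rw [hL5]
        by_cases hac : a < c
        · simp [hp.2.2 a, hac, not_le.2 hac]
        · simp [hp.2.2 a, hac, not_lt.1 hac]
    rw [← hLf]
    exact hG _ L (fun n => hhG _) hL1

end Pool.Agent.Helper695.PD.J11
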