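import Pool.Agent.Helper695.PD.Defs

set_option autoImplicit false

open Filter Topology

namespace Pool.Agent.Helper695.PD.J14


theorem coef_tendsto_zero {X : Type} [NormedAddCommGroup X] [NormedSpace ℝ X]
    (G : Submodule ℝ (X →L[ℝ] ℝ)) (hG : SeqCl G) (f : X →L[ℝ] ℝ) (hf : f ∉ G)
    (h : ℕ → X →L[ℝ] ℝ) (s : ℕ → ℝ) (hh : ∀ n, h n ∈ G)
    (hlim : WTend (fun n => h n + s n • f) 0) : Tendsto s atTop (𝓝 0) := by
  by_contra hnot
  rw [Metric.tendsto_nhds] at hnot
  push Not at hnot
  obtain ⟨ε, hε, hfr⟩ := hnot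
  obtain ⟨φ, hφ, hP⟩ := Filter.extraction_of_frequently_atTop hfr
  have hP' : ∀ n, ε ≤ |s (φ n)| := by
    intro n
    have := hP n
    rwa [Real.dist_eq, sub_zero] at this
  have hs0 : ∀ n, s (φ n) ≠ 0 := by
    intro n hn
    have := hP' n
    rw [hn, abs_zero] at this
    linarith
  apply hf
  refine hG (fun n => -((1 / s (φ n)) • h (φ n))) f
    (fun n => G.neg_mem (G.smul_mem _ (hh _))) ?_
  intro x
  rw [tendsto_iff_norm_sub_tendsto_zero]
  have hw : Tendsto (fun n => h (φ n) x + s (φ n) * f x) atTop (𝓝 0) := by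
    have h1 := (hlim x).comp hφ.tendsto_atTop
    simpa [Function.comp_def] using h1
  have hw2 : Tendsto (fun n => 1 / ε * ‖h (φ n) x + s (φ n) * f x‖) atTop (𝓝 0) := by
    have h1 := (hw.norm).const_mul (1 / ε)
    simpa using h1
  refine squeeze_zero (fun n => norm_nonneg _) (fun n => ?_) hw2
  have e : (-((1 / s (φ n)) • h (φ n))) x - f x =
      -(1 / s (φ n)) * (h (φ n) x + s (φ n) * f x) := by
    have h1 : (-((1 / s (φ n)) • h (φ n))) x = -((1 / s (φ n)) * h (φ n) x) := by simp
    rw [h1]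
    have := hs0 n
    field_simp
    ring
  rw [e, norm_mul, norm_neg, norm_div, norm_one, Real.norm_eq_abs (s (φ n))]
  exact mul_le_mul_of_nonneg_right (one_div_le_one_div_of_le hε (hP' n)) (norm_nonneg _)

theorem seqCl_sup {X : Type} [NormedAddCommGroup X] [NormedSpace ℝ X]
    (G : Submodule ℝ (X →L[ℝ] ℝ)) (hG : SeqCl G) (f : X →L[ℝ] ℝ) :
    SeqCl (G ⊔ Submodule.span ℝ {f}) := by
  by_cases hf : f ∈ G
  · have e : G ⊔ Submodule.span ℝ {f} = G := by
      rw [sup_eq_left, Submodule.span_singleton_le_iff_mem]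
      exact hf
    rw [e]
    exact hG
  intro u v hu hlim
  have hdec : ∀ n, ∃ h ∈ G, ∃ s : ℝ, h + s • f = u n := by
    intro n
    obtain ⟨y, hy, z, hz, hyz⟩ := Submodule.mem_sup.1 (hu n)
    obtain ⟨a, rfl⟩ := Submodule.mem_span_singleton.1 hz
    exact ⟨y, hy, a, hyz⟩
  choose h hh s hs using hdec
  have hC : CauchySeq s := by
    rw [Metric.cauchySeq_iff]
    by_contra hcon
    push Not at hcon
    obtain ⟨ε, hε, hN⟩ := hcon
    choose k hk l hl hkl using hN
    have hk' : Tendsto k atTop atTop := tendsto_atTop_mono hk tendsto_id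
    have hl' : Tendsto l atTop atTop := tendsto_atTop_mono hl tendsto_id
    have h1 := coef_tendsto_zero G hG f hf (fun n => h (k n) - h (l n))
      (fun n => s (k n) - s (l n)) (fun n => G.sub_mem (hh _) (hh _)) (by
        intro x
        have e : (fun n => (h (k n) - h (l n) + (s (k n) - s (l n)) • f) x) =
            fun n => u (k n) x - u (l n) x := by
          funext n
          rw [← hs (k n), ← hs (l n)]
          simp
          ring
        show Tendsto (fun n => (h (k n) - h (l n) + (s (k n) - s (l n)) • f) x) atTop (𝓝 _)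
        rw [e]
        have h2 := ((hlim x).comp hk').sub ((hlim x).comp hl')
        simpa [Function.comp_def] using h2)
    rw [Metric.tendsto_nhds] at h1
    obtain ⟨n, hn⟩ := (h1 ε hε).exists
    rw [Real.dist_eq, sub_zero] at hn
    have h3 := hkl n
    rw [Real.dist_eq] at h3
    linarith
  obtain ⟨s0, hs0⟩ := cauchySeq_tendsto_of_complete hC
  have hmem : v - s0 • f ∈ G := by
    refine hG h _ hh ?_
    intro x
    have e : (fun n => h n x) = fun n => u n x - s n * f x := by
      funext n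
      rw [← hs n]
      simp
    rw [e]
    have h2 := (hlim x).sub (hs0.mul_const (f x))
    simpa using h2
  rw [Submodule.mem_sup]
  exact ⟨v - s0 • f, hmem, s0 • f, Submodule.mem_span_singleton.2 ⟨s0, rfl⟩, by simp⟩

end Pool.Agent.Helper695.PD.J14
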