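import Pool.Agent.Helper695.PD.Defs

set_option autoImplicit false

open Filter Topology

namespace Pool.Agent.Helper695.PD.J15


theorem ev_const_of_cont {Ω : Type} [LinearOrder Ω] (hO : IsOm1 Ω) (ψ : Ω → ℝ)
    (h : ∀ (b : ℕ → Ω) (c : Ω), StrictMono b → (∀ k, b k < c) → (∀ a, a < c → ∃ k, a < b k) →
      Tendsto (fun k => ψ (b k)) atTop (𝓝 (ψ c))) :
    ∃ (c : Ω) (t : ℝ), ∀ a, c ≤ a → ψ a = t := by
  have hwf := hO.wf
  have key : ∀ ε : ℝ, 0 < ε → ∃ c : Ω, ∀ a b, c ≤ a → c ≤ b → |ψ a - ψ b| ≤ ε := by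
    intro ε hε
    by_contra hcon
    push Not at hcon
    choose A B hA hB hAB using hcon
    have hN : ∀ c : Ω, ∃ b, A c < b ∧ B c < b := by
      intro c
      obtain ⟨b, hb⟩ := hO.bdd {A c, B c} (Set.toFinite _).countable
      exact ⟨b, hb _ (by simp), hb _ (by simp)⟩
    choose N hNA hNB using hN
    obtain ⟨g0, -⟩ := hO.bdd ∅ Set.countable_empty
    let γ : ℕ → Ω := fun k => N^[k] g0
    have hγs : ∀ k, γ (k + 1) = N (γ k) := fun k => Function.iterate_succ_apply' N k g0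
    have hex : ∃ c : Ω, ∀ k, γ k < c := by
      obtain ⟨b, hb⟩ := hO.bdd (Set.range γ) (Set.countable_range γ)
      exact ⟨b, fun k => hb _ ⟨k, rfl⟩⟩
    obtain ⟨c, hc, hmin⟩ := WellFounded.has_min hwf.wf {c : Ω | ∀ k, γ k < c} hex
    have hc' : ∀ k, γ k < c := hc
    have hbelow : ∀ a, a < c → ∃ k, a ≤ γ k := by
      intro a ha
      by_contra hcon
      push Not at hcon
      exact hmin a hcon ha
    have hconv : ∀ D : Ω → Ω, (∀ c, c ≤ D c) → (∀ c, D c < N c) →
        Tendsto (fun k => ψ (D (γ k))) atTop (𝓝 (ψ c)) := by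
      intro D hD1 hD2
      have hmono : StrictMono fun k => D (γ k) := by
        apply strictMono_nat_of_lt_succ
        intro k
        have h1 := hD2 (γ k)
        rw [← hγs k] at h1
        exact h1.trans_le (hD1 _)
      refine h (fun k => D (γ k)) c hmono ?_ ?_
      · intro k
        have h1 := hD2 (γ k)
        rw [← hγs k] at h1
        exact h1.trans (hc' _)
      · intro a ha
        obtain ⟨k, hk⟩ := hbelow a ha
        exact ⟨k + 1, (hk.trans (hD1 _)).trans_lt (hmono (Nat.lt_succ_self k))⟩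
    have h1 := hconv A hA hNA
    have h2 := hconv B hB hNB
    have h3 := (h1.sub h2).abs
    rw [sub_self, abs_zero] at h3
    have h4 := (h3.eventually (gt_mem_nhds hε)).exists
    obtain ⟨k, hk⟩ := h4
    exact absurd hk (not_lt.2 (hAB (γ k)).le)
  choose C hC using fun n : ℕ => key (1 / ((n : ℝ) + 1)) (by positivity)
  obtain ⟨c, hc⟩ := hO.bdd (Set.range C) (Set.countable_range C)
  refine ⟨c, ψ c, fun a ha => ?_⟩
  have h1 : ∀ n : ℕ, |ψ a - ψ c| ≤ 1 / ((n : ℝ) + 1) := fun n =>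
    hC n a c ((hc _ ⟨n, rfl⟩).le.trans ha) (hc _ ⟨n, rfl⟩).le
  have h2 : |ψ a - ψ c| ≤ 0 :=
    ge_of_tendsto' tendsto_one_div_add_atTop_nhds_zero_nat h1
  have h3 := abs_nonpos_iff.1 h2
  linarith

end Pool.Agent.Helper695.PD.J15
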