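import Pool.Agent.Helper695.PD.Defs
import Pool.Agent.Helper695.PD.J10A
import Pool.Agent.Helper695.PD.J10B

set_option autoImplicit false

open Filter Topology

namespace Pool.Agent.Helper695.PD.J16

open Pool.Agent.Helper695.PD.J10A
open Pool.Agent.Helper695.PD.J10B









theorem column_trick {Ω : Type} [LinearOrder Ω] (hO : IsOm1 Ω) {X : Type}
    [NormedAddCommGroup X] [NormedSpace ℝ X] [CompleteSpace X] (F : Frame Ω X)
    (pt : Ω → X →L[ℝ] ℝ) (hpt : ∀ c, IsPt F c (pt c))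
    (col : ℕ → X →L[ℝ] ℝ) (hcol : ∀ m, IsCol F m (col m))
    (Φ : (X →L[ℝ] ℝ) → ℝ) (hΦ0 : Φ 0 = 0)
    (hΦ : ∀ (u : ℕ → X →L[ℝ] ℝ) (f : X →L[ℝ] ℝ), WTend u f →
      Tendsto (fun n => Φ (u n)) atTop (𝓝 (Φ f)))
    (c₀ : Ω) (t : ℝ) (ht : ∀ a, c₀ ≤ a → Φ (pt a) = t) : t = 0 := by
  by_contra hne
  obtain ⟨r, hr⟩ : ∃ r : ℝ, r = |t| / 2 := ⟨_, rfl⟩
  have ht0 : 0 < |t| := abs_pos.mpr hne
  have hrpos : 0 < r := by rw [hr]; linarith
  have hA : ∀ᶠ m in atTop, |Φ (col m)| < r := by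
    have h1 := hΦ col 0 (col_wtend_zero F col hcol)
    rw [hΦ0] at h1
    have h2 := h1.abs
    rw [abs_zero] at h2
    exact h2.eventually (gt_mem_nhds hrpos)
  have hB : ∀ m, |Φ (col m)| < r → ∀ᶠ j in atTop, |Φ (F.co (m, j))| < r := by
    intro m hm
    have h1 := (hΦ _ _ (wtend_to_col F m (col m) (hcol m))).abs
    exact h1.eventually (gt_mem_nhds hm)
  have hmono : ∀ a b, a ≤ b → ∀ᶠ m in atTop, F.g a m ≤ F.g b m := by
    intro a b hab
    rcases hab.eq_or_lt with h | h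
    · rw [h]; exact Eventually.of_forall fun _ => le_rfl
    · exact (F.g_lt a b h).mono fun _ h => h.le
  have hC : ∀ b, c₀ < b → ∀ᶠ m in atTop, r ≤ |Φ (F.co (m, F.g b m))| := by
    intro b hb
    by_contra hcon
    have hf1 : ∃ᶠ m in atTop, |Φ (F.co (m, F.g b m))| < r := by
      rw [Filter.not_eventually] at hcon
      exact hcon.mono fun m hm => not_le.mp hm
    have hf2 : ∃ᶠ m in atTop, |Φ (F.co (m, F.g b m))| < r ∧ F.g c₀ m < F.g b m :=
      hf1.and_eventually (F.g_lt c₀ b hb)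
    obtain ⟨P, hP⟩ : ∃ P : Ω → Prop, P = fun a => ∃ᶠ m in atTop,
      (|Φ (F.co (m, F.g b m))| < r ∧ F.g c₀ m < F.g b m) ∧ F.g b m ≤ F.g a m := ⟨_, rfl⟩
    have hPb : P b := by
      rw [hP]
      exact hf2.mono fun m hm => ⟨hm, le_rfl⟩
    obtain ⟨c, hc, hmin⟩ := hO.wf.wf.has_min {a | P a} ⟨b, hPb⟩
    have hc' : P c := hc
    have hcc : c₀ < c := by
      by_contra h
      have h1 := hmono c c₀ (not_lt.mp h)
      rw [hP] at hc'
      obtain ⟨m, ⟨⟨_, h2⟩, h3⟩, h4⟩ := (hc'.and_eventually h1).exists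
      omega
    have hc'' := hc'
    rw [hP] at hc''
    obtain ⟨φ, hφ, hφP⟩ := Filter.extraction_of_frequently_atTop hc''
    have hφt : Tendsto φ atTop atTop := hφ.tendsto_atTop
    have h1 : ∀ m, ∀ᶠ k in atTop, (φ k, F.g b (φ k)).1 ≠ m := by
      intro m
      have h := hφt.eventually (eventually_gt_atTop m)
      exact h.mono fun k hk => (ne_of_gt hk : φ k ≠ m)
    have h0 : ∀ x : ℕ × ℕ, ∀ᶠ k in atTop, (φ k, F.g b (φ k)) ≠ x := by
      intro x
      exact (h1 x.1).mono fun k hk h => hk (by rw [h])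
    have h2 : ∀ a, c ≤ a → ∀ᶠ k in atTop, (φ k, F.g b (φ k)).2 ≤ F.g a (φ k, F.g b (φ k)).1 := by
      intro a ha
      have h := hφt.eventually (hmono c a ha)
      exact h.mono fun k hk => ((hφP k).2.trans hk : F.g b (φ k) ≤ F.g a (φ k))
    have h3 : ∀ a, a < c → ∀ᶠ k in atTop,
        ¬ (φ k, F.g b (φ k)).2 ≤ F.g a (φ k, F.g b (φ k)).1 := by
      intro a ha
      have hna : ¬ P a := fun h => hmin a h ha
      rw [hP] at hna
      have hna' := Filter.not_frequently.mp hna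
      have h := hφt.eventually hna'
      exact h.mono fun k hk hle => hk ⟨(hφP k).1, hle⟩
    have hw := wtend_to_pt F c (pt c) (hpt c) (fun k => (φ k, F.g b (φ k))) h0 h1 h2 h3
    have hlim := (hΦ _ _ hw).abs
    rw [ht c hcc.le] at hlim
    have hle : |t| ≤ r := le_of_tendsto hlim (Eventually.of_forall fun k => (hφP k).1.1.le)
    linarith
  -- the maximal points
  obtain ⟨S, hS⟩ : ∃ S : ℕ → Set ℕ, S = fun m => {j | r ≤ |Φ (F.co (m, j))|} := ⟨_, rfl⟩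
  have hSm : ∀ m j, j ∈ S m ↔ r ≤ |Φ (F.co (m, j))| := by
    intro m j; rw [hS]; exact Iff.rfl
  have hbdd : ∀ m, |Φ (col m)| < r → BddAbove (S m) := by
    intro m hm
    obtain ⟨J, hJ⟩ := (hB m hm).exists_forall_of_atTop
    refine ⟨J, fun j hj => ?_⟩
    by_contra hlt
    have h1 := hJ j (not_le.mp hlt).le
    exact absurd ((hSm m j).mp hj) (not_le.mpr h1)
  have hex : ∀ a, ∃ b, a < b ∧ c₀ < b := by
    intro a
    obtain ⟨b, hb⟩ := hO.bdd {a, c₀} (by simp)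
    exact ⟨b, hb a (by simp), hb c₀ (by simp)⟩
  obtain ⟨b0, _, hb0⟩ := hex c₀
  have hmem : ∀ᶠ m in atTop, sSup (S m) ∈ S m := by
    filter_upwards [hA, hC b0 hb0] with m h1 h2
    exact Nat.sSup_mem ⟨F.g b0 m, (hSm _ _).mpr h2⟩ (hbdd m h1)
  have h1 : ∀ m, ∀ᶠ k : ℕ in atTop, (k, sSup (S k)).1 ≠ m := by
    intro m
    exact (eventually_gt_atTop m).mono fun k hk => (ne_of_gt hk : k ≠ m)
  have h0 : ∀ x : ℕ × ℕ, ∀ᶠ k in atTop, (k, sSup (S k)) ≠ x := by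
    intro x
    exact (h1 x.1).mono fun k hk h => hk (by rw [h])
  have h2 : ∀ a, ∀ᶠ k in atTop, ¬ (k, sSup (S k)).2 ≤ F.g a (k, sSup (S k)).1 := by
    intro a
    obtain ⟨b, hab, hcb⟩ := hex a
    filter_upwards [hA, hC b hcb, F.g_lt a b hab] with m h1 h2 h3
    have h4 : F.g b m ≤ sSup (S m) := le_csSup (hbdd m h1) ((hSm _ _).mpr h2)
    exact not_le.mpr (lt_of_lt_of_le h3 h4)
  have hw := wtend_to_zero F (fun k => (k, sSup (S k))) h0 h1 h2
  have hlim := (hΦ _ _ hw).abs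
  rw [hΦ0, abs_zero] at hlim
  have hge : r ≤ 0 := ge_of_tendsto hlim (hmem.mono fun m hm => (hSm _ _).mp hm)
  linarith

end Pool.Agent.Helper695.PD.J16
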