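import Pool.Agent.Helper695.PD.Defs
import Pool.Agent.Helper695.PD.J8

set_option autoImplicit false

open Filter Topology

namespace Pool.Agent.Helper695.PD.J17

open Pool.Agent.Helper695.PD.J8



/-- functionals with bounded support -/
def DP_N {Ω : Type} [LinearOrder Ω] {X : Type} [NormedAddCommGroup X] [NormedSpace ℝ X]
    (F : Frame Ω X) (c0 : Ω) : Submodule ℝ (X →L[ℝ] ℝ) where
  carrier := {f | (∀ e, f (F.dd e) = 0) ∧ (∀ m, f (F.cc m) = 0) ∧ ∃ c, ∀ a, c ≤ a → f (F.aa a) = 0}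
  add_mem' := by
    rintro f h ⟨f1, f2, c, f3⟩ ⟨h1, h2, c', h3⟩
    refine ⟨fun e => ?_, fun m => ?_, max c c', fun a ha => ?_⟩
    · rw [add_apply, f1, h1, add_zero]
    · rw [add_apply, f2, h2, add_zero]
    · rw [add_apply, f3 a ((le_max_left _ _).trans ha),
        h3 a ((le_max_right _ _).trans ha), add_zero]
  zero_mem' := ⟨fun e => rfl, fun m => rfl, c0, fun a _ => rfl⟩
  smul_mem' := by
    rintro r f ⟨f1, f2, c, f3⟩
    refine ⟨fun e => ?_, fun m => ?_, c, fun a ha => ?_⟩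
    · rw [smul_apply, f1, smul_zero]
    · rw [smul_apply, f2, smul_zero]
    · rw [smul_apply, f3 a ha, smul_zero]

theorem DP_mem {Ω : Type} [LinearOrder Ω] {X : Type} [NormedAddCommGroup X] [NormedSpace ℝ X]
    (F : Frame Ω X) (c0 : Ω) (f : X →L[ℝ] ℝ) : f ∈ DP_N F c0 ↔
      ((∀ e, f (F.dd e) = 0) ∧ (∀ m, f (F.cc m) = 0) ∧ ∃ c, ∀ a, c ≤ a → f (F.aa a) = 0) := Iff.rfl

theorem DP_tend {Ω : Type} [LinearOrder Ω] [Nonempty Ω] (hO : IsOm1 Ω) {X : Type}
    [NormedAddCommGroup X] [NormedSpace ℝ X] (F : Frame Ω X)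
    (pt : Ω → X →L[ℝ] ℝ) (hpt : ∀ c, IsPt F c (pt c)) (hn : ∀ c, ‖pt c‖ ≤ 1) (x : X) :
    Tendsto (fun c => pt c x) atTop (𝓝 0) := by
  have hspan : ∀ y ∈ (Submodule.span ℝ (Set.range F.dd ∪ Set.range F.cc ∪ Set.range F.aa) :
      Submodule ℝ X), ∀ᶠ c in atTop, pt c y = 0 := by
    intro y hy
    induction hy using Submodule.span_induction with
    | mem y hy =>
      rcases hy with (⟨e, rfl⟩ | ⟨m, rfl⟩) | ⟨a, rfl⟩
      · exact Eventually.of_forall (fun c => (hpt c).1 e)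
      · exact Eventually.of_forall (fun c => (hpt c).2.1 m)
      · obtain ⟨b, hb⟩ := hO.bdd {a} (Set.countable_singleton a)
        filter_upwards [eventually_ge_atTop b] with c hc
        rw [(hpt c).2.2 a, if_neg (not_le.2 ((hb a rfl).trans_le hc))]
    | zero => exact Eventually.of_forall (fun c => map_zero _)
    | add y z _ _ h1 h2 =>
      filter_upwards [h1, h2] with c e1 e2
      rw [map_add, e1, e2, add_zero]
    | smul r y _ h1 =>
      filter_upwards [h1] with c e1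
      rw [map_smul, e1, smul_zero]
  rw [Metric.tendsto_nhds]
  intro ε hε
  have hx : x ∈ closure ((Submodule.span ℝ (Set.range F.dd ∪ Set.range F.cc ∪ Set.range F.aa) :
      Submodule ℝ X) : Set X) := by
    rw [F.dense]
    trivial
  obtain ⟨y, hy, hxy⟩ := Metric.mem_closure_iff.1 hx ε hε
  filter_upwards [hspan y hy] with c hc
  rw [dist_zero_right]
  have h1 : pt c x = pt c (x - y) := by rw [map_sub, hc, sub_zero]
  rw [h1]
  calc ‖pt c (x - y)‖ ≤ ‖pt c‖ * ‖x - y‖ := (pt c).le_opNorm _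
    _ ≤ 1 * ‖x - y‖ := mul_le_mul_of_nonneg_right (hn c) (norm_nonneg _)
    _ < ε := by rw [one_mul, ← dist_eq_norm]; exact hxy

theorem not_Dprime {Ω : Type} [LinearOrder Ω] (hO : IsOm1 Ω) {X : Type} [NormedAddCommGroup X]
    [NormedSpace ℝ X] [CompleteSpace X] (F : Frame Ω X)
    (pt : Ω → X →L[ℝ] ℝ) (hpt : ∀ c, IsPt F c (pt c)) (hn : ∀ c, ‖pt c‖ ≤ 1) :
    ∃ M : Submodule ℝ (WeakDual ℝ X), IsSeqClosed (M : Set (WeakDual ℝ X)) ∧
      ¬ IsClosed (M : Set (WeakDual ℝ X)) := by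
  obtain ⟨c0, -⟩ := hO.bdd ∅ Set.countable_empty
  haveI : Nonempty Ω := ⟨c0⟩
  refine ⟨(DP_N F c0).comap (WeakDual.toStrongDual : WeakDual ℝ X ≃ₗ[ℝ] StrongDual ℝ X).toLinearMap,
    ?_, ?_⟩
  · intro u f hu hf
    have hf' : ∀ y, Tendsto (fun n => u n y) atTop (𝓝 (f y)) :=
      fun y => ((WeakDual.eval_continuous y).tendsto f).comp hf
    have hu' : ∀ n, (∀ e, u n (F.dd e) = 0) ∧ (∀ m, u n (F.cc m) = 0) ∧
        ∃ c, ∀ a, c ≤ a → u n (F.aa a) = 0 := fun n => hu n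
    choose h1 h2 c h3 using hu'
    obtain ⟨b, hb⟩ := hO.bdd (Set.range c) (Set.countable_range c)
    show (∀ e, f (F.dd e) = 0) ∧ (∀ m, f (F.cc m) = 0) ∧ ∃ c, ∀ a, c ≤ a → f (F.aa a) = 0
    refine ⟨fun e => ?_, fun m => ?_, b, fun a ha => ?_⟩
    · have := hf' (F.dd e)
      simp only [h1] at this
      exact tendsto_nhds_unique this tendsto_const_nhds
    · have := hf' (F.cc m)
      simp only [h2] at this
      exact tendsto_nhds_unique this tendsto_const_nhds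
    · have := hf' (F.aa a)
      have h4 : ∀ n, u n (F.aa a) = 0 := fun n => h3 n a ((hb _ ⟨n, rfl⟩).le.trans ha)
      simp only [h4] at this
      exact tendsto_nhds_unique this tendsto_const_nhds
  · intro hcl
    have h1 : Tendsto (fun c => (StrongDual.toWeakDual (pt c0 - pt c) : WeakDual ℝ X)) atTop
        (𝓝 (StrongDual.toWeakDual (pt c0))) := by
      rw [tendsto_iff_forall_eval_tendsto_topDualPairing]
      intro y
      show Tendsto (fun c => pt c0 y - pt c y) atTop (𝓝 (pt c0 y))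
      have h2 := (tendsto_const_nhds (x := pt c0 y)).sub (DP_tend hO F pt hpt hn y)
      rwa [sub_zero] at h2
    have h2 := hcl.mem_of_tendsto h1 (Eventually.of_forall (fun c => by
      show (∀ e, (pt c0 - pt c) (F.dd e) = 0) ∧ (∀ m, (pt c0 - pt c) (F.cc m) = 0) ∧
        ∃ c', ∀ a, c' ≤ a → (pt c0 - pt c) (F.aa a) = 0
      refine ⟨fun e => ?_, fun m => ?_, max c0 c, fun a ha => ?_⟩
      · rw [sub_apply, (hpt c0).1, (hpt c).1, sub_zero]
      · rw [sub_apply, (hpt c0).2.1, (hpt c).2.1, sub_zero]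
      · rw [sub_apply, (hpt c0).2.2, (hpt c).2.2,
          if_pos ((le_max_left _ _).trans ha), if_pos ((le_max_right _ _).trans ha), sub_self]))
    obtain ⟨-, -, c, hc⟩ : (∀ e, pt c0 (F.dd e) = 0) ∧ (∀ m, pt c0 (F.cc m) = 0) ∧
        ∃ c, ∀ a, c ≤ a → pt c0 (F.aa a) = 0 := h2
    have h3 := hc (max c0 c) (le_max_right _ _)
    rw [(hpt c0).2.2, if_pos (le_max_left _ _)] at h3
    exact one_ne_zero h3

end Pool.Agent.Helper695.PD.J17
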