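import Pool.Agent.Helper695.PD.Defs

set_option autoImplicit false

open Filter Topology

namespace Pool.Agent.Helper695.PD.J4


section Aux7254

open MeasureTheory

lemma gauss_pos_7254 {U : Set ℝ} (hU : IsOpen U) (hne : U.Nonempty) :
    ProbabilityTheory.gaussianReal 0 1 U ≠ 0 := by
  intro h
  have h1 : volume U ≠ 0 := (hU.measure_pos volume hne).ne'
  have h2 := ProbabilityTheory.gaussianReal_absolutelyContinuous' 0 (v := 1) one_ne_zero
  exact h1 (h2 h)

lemma restr_open_7254 {ι : Type} (S : Set ι) :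
    IsOpenMap (fun (x : ι → ℝ) (i : S) => x i) := by
  classical
  have : (fun (x : ι → ℝ) (i : S) => x i) =
      Prod.fst ∘ (Homeomorph.piEquivPiSubtypeProd (· ∈ S) (fun _ => ℝ)) := rfl
  rw [this]
  exact isOpenMap_fst.comp (Homeomorph.isOpenMap _)

lemma ccc_7254 {ι : Type} (O : Set (ι → ℝ)) (hO : IsOpen O) :
    ∃ (S : Set ι) (F : Set (S → ℝ)), S.Countable ∧ IsClosed F ∧
      closure O = (fun (x : ι → ℝ) (i : S) => x i) ⁻¹' F := by
  classical
  let μ : Measure (ι → ℝ) := Measure.infinitePi (fun _ => ProbabilityTheory.gaussianReal 0 1)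
  let C : Set (Set (ι → ℝ)) := {B | ∃ (I : Finset ι) (u : ι → Set ℝ), (∀ i, IsOpen (u i)) ∧
    B = (I : Set ι).pi u ∧ B ⊆ O}
  have hCm : ∀ s ∈ C, MeasurableSet s := by
    rintro s ⟨I, u, hu, rfl, -⟩
    exact MeasurableSet.pi I.countable_toSet (fun i _ => (hu i).measurableSet)
  obtain ⟨D, hDC, hDc, hD⟩ := Measure.exists_ae_subset_biUnion_countable μ hCm
  have hd : ∀ B ∈ D, ∃ (I : Finset ι) (u : ι → Set ℝ), (∀ i, IsOpen (u i)) ∧
    B = (I : Set ι).pi u ∧ B ⊆ O := fun B hB => hDC hB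
  choose! I u hu hB hBO using hd
  let S : Set ι := ⋃ B ∈ D, (I B : Set ι)
  have hS : S.Countable := hDc.biUnion (fun B _ => (I B).countable_toSet)
  let W : Set (S → ℝ) := ⋃ B ∈ D, {y | ∀ i : S, (i : ι) ∈ I B → y i ∈ u B i}
  have hrc : Continuous (fun (x : ι → ℝ) (i : S) => x i) := by fun_prop
  have hW : (fun (x : ι → ℝ) (i : S) => x i) ⁻¹' W = ⋃₀ D := by
    ext x
    simp only [W, Set.mem_preimage, Set.mem_iUnion, Set.mem_sUnion, exists_prop]
    constructor
    · rintro ⟨B, hBD, hx⟩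
      refine ⟨B, hBD, ?_⟩
      rw [hB B hBD]
      intro i hi
      exact hx ⟨i, Set.mem_iUnion₂.mpr ⟨B, hBD, hi⟩⟩ hi
    · rintro ⟨B, hBD, hx⟩
      refine ⟨B, hBD, ?_⟩
      rw [hB B hBD] at hx
      intro i hi
      exact hx i hi
  refine ⟨S, closure W, hS, isClosed_closure, ?_⟩
  rw [(restr_open_7254 S).preimage_closure_eq_closure_preimage hrc, hW]
  apply Set.Subset.antisymm
  · apply closure_minimal _ isClosed_closure
    intro x hx
    by_contra hcon
    have hopen : IsOpen (O \ closure (⋃₀ D)) := hO.sdiff isClosed_closure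
    obtain ⟨J, v, hv, hJ⟩ := isOpen_pi_iff.mp hopen x ⟨hx, hcon⟩
    let v' : ι → Set ℝ := fun i => if i ∈ J then v i else Set.univ
    have hv' : ∀ i, IsOpen (v' i) := by
      intro i
      by_cases hi : i ∈ J
      · simp only [v', if_pos hi]; exact (hv i hi).1
      · simp only [v', if_neg hi]; exact isOpen_univ
    have hpi : (J : Set ι).pi v' = (J : Set ι).pi v := by
      apply Set.pi_congr rfl
      intro i hi
      have hi' : i ∈ J := hi
      simp only [v', if_pos hi']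
    have hsub : (J : Set ι).pi v' ⊆ O \ closure (⋃₀ D) := by rw [hpi]; exact hJ
    have hVC : (J : Set ι).pi v' ∈ C := ⟨J, v', hv', rfl, fun y hy => (hsub hy).1⟩
    have h1 := ae_le_set.mp (hD _ hVC)
    have h2 : (J : Set ι).pi v' \ ⋃₀ D = (J : Set ι).pi v' := by
      apply sdiff_eq_left.mpr
      rw [Set.disjoint_left]
      intro y hy hy2
      exact (hsub hy).2 (subset_closure hy2)
    rw [h2] at h1
    have h3 : μ ((J : Set ι).pi v') = ∏ i ∈ J, ProbabilityTheory.gaussianReal 0 1 (v' i) :=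
      Measure.infinitePi_pi _ (fun i _ => (hv' i).measurableSet)
    rw [h3, Finset.prod_eq_zero_iff] at h1
    obtain ⟨i, hi, h4⟩ := h1
    refine gauss_pos_7254 (hv' i) ⟨x i, ?_⟩ h4
    simp only [v', if_pos hi]
    exact (hv i hi).2
  · exact closure_mono (Set.sUnion_subset (fun B hBD => hBO B hBD))

lemma dense_7254 {X : Type} [NormedAddCommGroup X] [NormedSpace ℝ X] {ι : Type}
    (b : ι → X →L[ℝ] ℝ) (hb : LinearIndependent ℝ b) (J : Finset ι) (c : ι → ℝ) :
    ∃ x : X, ∀ j ∈ J, b j x = c j := by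
  classical
  let T : X →ₗ[ℝ] (J → ℝ) := LinearMap.pi (fun j => ((b j : X →L[ℝ] ℝ) : X →ₗ[ℝ] ℝ))
  have hTa : ∀ x j, T x j = b j x := fun x j => rfl
  have hT : LinearMap.range T = ⊤ := by
    by_contra hne
    obtain ⟨φ, hφ, hle⟩ := Submodule.exists_le_ker_of_lt_top _ (lt_top_iff_ne_top.mpr hne)
    apply hφ
    have h1 : ∀ y : J → ℝ, φ y = ∑ j, y j * φ (Pi.single j 1) := by
      intro y
      conv_lhs => rw [pi_eq_sum_univ' y]
      rw [map_sum]
      apply Finset.sum_congr rfl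
      intro j _
      rw [map_smul, smul_eq_mul]
    have h2 : ∑ j : J, φ (Pi.single j 1) • b j = 0 := by
      ext x
      have h3 : φ (T x) = 0 := hle ⟨x, rfl⟩
      rw [h1] at h3
      simp only [hTa] at h3
      simp only [FunLike.coe_sum, Finset.sum_apply, smul_apply,
        smul_eq_mul, zero_apply]
      rw [← h3]
      apply Finset.sum_congr rfl
      intro j _
      ring
    have hb' : LinearIndependent ℝ (fun j : J => b j) := hb.comp _ Subtype.val_injective
    have h3 := Fintype.linearIndependent_iff.mp hb' _ h2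
    apply LinearMap.ext
    intro y
    rw [h1]
    simp [h3]
  obtain ⟨x, hx⟩ := LinearMap.range_eq_top.mp hT (fun j => c j)
  refine ⟨x, fun j hj => ?_⟩
  have := congrFun hx ⟨j, hj⟩
  rwa [hTa] at this

end Aux7254

theorem edgar {X : Type} [NormedAddCommGroup X] [NormedSpace ℝ X] (f : X → ℝ)
    (hf : @Continuous X ℝ
      (⨅ φ : X →L[ℝ] ℝ, TopologicalSpace.induced (fun x => φ x)
        (inferInstance : TopologicalSpace ℝ)) _ f)
    (m : MeasurableSpace X) (hm : ∀ φ : X →L[ℝ] ℝ, @Measurable X ℝ m _ (fun x => φ x)) :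
    @Measurable X ℝ m _ f := by
  classical
  let b := Module.Basis.ofVectorSpace ℝ (X →L[ℝ] ℝ)
  let ι := Module.Basis.ofVectorSpaceIndex ℝ (X →L[ℝ] ℝ)
  let Φ : X → (ι → ℝ) := fun x i => b i x
  have hcont : ∀ φ : X →L[ℝ] ℝ, @Continuous X ℝ
      (TopologicalSpace.induced Φ Pi.topologicalSpace) _ (fun x => φ x) := by
    intro φ
    have h1 : (fun x => φ x) = (fun y : ι → ℝ => ∑ i ∈ (b.repr φ).support, (b.repr φ i) * y i) ∘ Φ := by
      funext x
      have h2 := Module.Basis.linearCombination_repr b φ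
      conv_lhs => rw [← h2]
      rw [Finsupp.linearCombination_apply, Finsupp.sum]
      simp [Φ]
    rw [h1]
    have h3 : Continuous (fun y : ι → ℝ => ∑ i ∈ (b.repr φ).support, (b.repr φ i) * y i) := by
      fun_prop
    exact @Continuous.comp X (ι → ℝ) ℝ (TopologicalSpace.induced Φ Pi.topologicalSpace) _ _ _ _
      h3 continuous_induced_dom
  have hle : TopologicalSpace.induced Φ Pi.topologicalSpace ≤
      (⨅ φ : X →L[ℝ] ℝ, TopologicalSpace.induced (fun x => φ x)
        (inferInstance : TopologicalSpace ℝ)) :=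
    le_iInf (fun φ => continuous_iff_le_induced.mp (hcont φ))
  have hf' : @Continuous X ℝ (TopologicalSpace.induced Φ Pi.topologicalSpace) _ f :=
    continuous_le_dom hle hf
  have hop : ∀ A : Set ℝ, IsOpen A → ∃ t : Set (ι → ℝ), IsOpen t ∧ Φ ⁻¹' t = f ⁻¹' A := by
    intro A hA
    have h1 := (continuous_def.mp hf') A hA
    exact isOpen_induced_iff.mp h1
  have hO : ∀ q : ℝ, ∃ t : Set (ι → ℝ), IsOpen t ∧ Φ ⁻¹' t = f ⁻¹' (Set.Ioi q) :=
    fun q => hop _ isOpen_Ioi
  choose O hOo hOe using hO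
  have hdr : ∀ V : Set (ι → ℝ), IsOpen V → V.Nonempty → ∃ x, Φ x ∈ V := by
    rintro V hV ⟨y, hy⟩
    obtain ⟨J, v, hv, hJ⟩ := isOpen_pi_iff.mp hV y hy
    obtain ⟨x, hx⟩ := dense_7254 b b.linearIndependent J y
    refine ⟨x, hJ ?_⟩
    intro j hj
    show b j x ∈ v j
    rw [hx j hj]
    exact (hv j hj).2
  have hcl : ∀ q x, Φ x ∈ closure (O q) → q ≤ f x := by
    intro q x hx
    by_contra hlt
    push Not at hlt
    obtain ⟨V, hVo, hVe⟩ := hop (Set.Iio q) isOpen_Iio
    have hxV : Φ x ∈ V := by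
      have : x ∈ Φ ⁻¹' V := by rw [hVe]; exact hlt
      exact this
    have hne : (V ∩ O q).Nonempty := mem_closure_iff.mp hx V hVo hxV
    obtain ⟨y, hy1, hy2⟩ := hdr _ (hVo.inter (hOo q)) hne
    have h1 : y ∈ f ⁻¹' (Set.Iio q) := by rw [← hVe]; exact hy1
    have h2 : y ∈ f ⁻¹' (Set.Ioi q) := by rw [← hOe]; exact hy2
    exact lt_asymm (show f y < q from h1) (show q < f y from h2)
  apply measurable_of_Ioi
  intro q
  have hU : f ⁻¹' (Set.Ioi q) = ⋃ r : ℚ, ⋃ _ : q < (r : ℝ), Φ ⁻¹' (closure (O r)) := by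
    ext x
    simp only [Set.mem_iUnion, Set.mem_preimage, Set.mem_Ioi, exists_prop]
    constructor
    · intro hx
      obtain ⟨r, hr1, hr2⟩ := exists_rat_btwn hx
      refine ⟨r, hr1, subset_closure ?_⟩
      have : x ∈ Φ ⁻¹' (O r) := by rw [hOe]; exact hr2
      exact this
    · rintro ⟨r, hr1, hr2⟩
      exact lt_of_lt_of_le hr1 (hcl _ _ hr2)
  rw [hU]
  refine MeasurableSet.iUnion (fun r => MeasurableSet.iUnion (fun _ => ?_))
  obtain ⟨S, F, hS, hF, hE⟩ := ccc_7254 (O r) (hOo r)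
  rw [hE, ← Set.preimage_comp]
  have : Countable S := hS.to_subtype
  have hmeas : Measurable ((fun (x : ι → ℝ) (i : S) => x i) ∘ Φ) := by
    apply measurable_pi_lambda
    intro i
    exact hm (b i)
  exact hmeas hF.measurableSet

end Pool.Agent.Helper695.PD.J4
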