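import Pool.Agent.Helper695.PD.Defs
import Pool.Agent.Helper695.PD.J4

set_option autoImplicit false

open Filter Topology

namespace Pool.Agent.Helper695.PD.J18

open Pool.Agent.Helper695.PD.J4



/-- the topology induced by a set of functionals -/
def tauG {X : Type} [NormedAddCommGroup X] [NormedSpace ℝ X] (Γ : Set (X →L[ℝ] ℝ)) :
    TopologicalSpace X :=
  (⨅ φ ∈ Γ, TopologicalSpace.induced (fun x => φ x) (inferInstance : TopologicalSpace ℝ))

theorem D_of_T {X : Type} [NormedAddCommGroup X] [NormedSpace ℝ X]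
    (hT : ∀ G : Submodule ℝ (X →L[ℝ] ℝ), SeqCl G → Total G → G = ⊤)
    (Γ : Set (X →L[ℝ] ℝ)) (hΓ : ∀ x : X, x ≠ 0 → ∃ φ ∈ Γ, φ x ≠ 0) :
        MeasurableSpace.generateFrom
            {s : Set X | ∃ f : X → ℝ,
              @Continuous X ℝ
                (⨅ φ ∈ Γ, TopologicalSpace.induced (fun x => φ x) (inferInstance : TopologicalSpace ℝ)) _ f
              ∧ s = f ⁻¹' {0}} =
          MeasurableSpace.generateFrom
            {s : Set X | ∃ f : X → ℝ,
              @Continuous X ℝ
                (⨅ φ : X →L[ℝ] ℝ, TopologicalSpace.induced (fun x => φ x) (inferInstance : TopologicalSpace ℝ)) _ f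
              ∧ s = f ⁻¹' {0}} := by
  classical
  change MeasurableSpace.generateFrom {s : Set X | ∃ f : X → ℝ, @Continuous X ℝ (tauG Γ) _ f ∧ s = f ⁻¹' {0}} = _
  set m1 : MeasurableSpace X := MeasurableSpace.generateFrom
            {s : Set X | ∃ f : X → ℝ, @Continuous X ℝ (tauG Γ) _ f ∧ s = f ⁻¹' {0}} with hm1
  have hA : ∀ g : X → ℝ, @Continuous X ℝ (tauG Γ) _ g → @Measurable X ℝ m1 _ g := by
    intro g hg
    refine @measurable_of_isClosed ℝ X _ _ _ m1 g ?_
    intro C hC
    rcases C.eq_empty_or_nonempty with rfl | hne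
    · rw [Set.preimage_empty]; exact @MeasurableSet.empty X m1
    · apply MeasurableSpace.measurableSet_generateFrom
      refine ⟨fun x => Metric.infDist (g x) C, ?_, ?_⟩
      · exact @Continuous.comp X ℝ ℝ (tauG Γ) _ _ g _ (Metric.continuous_infDist_pt C) hg
      · ext x
        simp only [Set.mem_preimage, Set.mem_singleton_iff]
        exact hC.mem_iff_infDist_zero hne
  have hB : ∀ φ ∈ Γ, @Continuous X ℝ (tauG Γ) _ (fun x => φ x) := by
    intro φ hφ
    rw [@continuous_iff_le_induced X ℝ (fun x => φ x) (tauG Γ) _]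
    exact iInf₂_le φ hφ
  let G : Submodule ℝ (X →L[ℝ] ℝ) :=
    { carrier := {φ | @Measurable X ℝ m1 _ (fun x => φ x)}
      add_mem' := by
        intro a b ha hb
        exact Measurable.add (f := fun x => a x) (g := fun x => b x) ha hb
      zero_mem' := by
        exact (measurable_const : Measurable fun _ : X => (0:ℝ))
      smul_mem' := by
        intro c a ha
        exact Measurable.const_mul (f := fun x => a x) ha c }
  have hG : G = ⊤ := by
    apply hT
    · intro u f hu hf
      refine @measurable_of_tendsto_metrizable X ℝ m1 _ _ _ _ (fun n x => u n x) (fun x => f x) (fun n => hu n) ?_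
      rw [tendsto_pi_nhds]
      exact hf
    · intro x hx
      obtain ⟨φ, hφ, h⟩ := hΓ x hx
      exact ⟨φ, hA _ (hB φ hφ), h⟩
  have hall : ∀ φ : X →L[ℝ] ℝ, @Measurable X ℝ m1 _ (fun x => φ x) := by
    intro φ
    have : φ ∈ G := by rw [hG]; exact Submodule.mem_top
    exact this
  apply le_antisymm
  · apply MeasurableSpace.generateFrom_mono
    rintro s ⟨f, hf, rfl⟩
    refine ⟨f, ?_, rfl⟩
    exact continuous_le_dom (le_iInf₂ fun φ _ => iInf_le _ φ) hf
  · apply MeasurableSpace.generateFrom_le
    rintro s ⟨f, hf, rfl⟩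
    exact edgar f hf m1 hall (measurableSet_singleton (0:ℝ))

end Pool.Agent.Helper695.PD.J18
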