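import Pool.Agent.Helper695.PD.Defs

set_option autoImplicit false

open Filter Topology

namespace Pool.Agent.Helper695.PD.J2


theorem j7249_dom (S : Set (ℕ → ℕ)) (hS : S.Countable) :
    ∃ h : ℕ → ℕ, ∀ s ∈ S, ∀ᶠ m in atTop, s m < h m := by
  rcases S.eq_empty_or_nonempty with rfl | hne
  · exact ⟨fun _ => 0, fun s hs => absurd hs (Set.notMem_empty s)⟩
  · obtain ⟨f, rfl⟩ := hS.exists_eq_range hne
    refine ⟨fun m => 1 + ∑ i ∈ Finset.range (m + 1), f i m, ?_⟩
    rintro s ⟨i, rfl⟩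
    filter_upwards [eventually_ge_atTop i] with m hm
    have h1 : f i m ≤ ∑ i ∈ Finset.range (m + 1), f i m :=
      Finset.single_le_sum (f := fun i => f i m) (fun _ _ => Nat.zero_le _)
        (Finset.mem_range.mpr (by omega))
    omega

open Classical in
noncomputable def j7249_H (S : Set (ℕ → ℕ)) : ℕ → ℕ :=
  if hS : S.Countable then Classical.choose (j7249_dom S hS) else fun _ => 0

theorem j7249_H_spec (S : Set (ℕ → ℕ)) (hS : S.Countable) (s : ℕ → ℕ) (hs : s ∈ S) :
    ∀ᶠ m in atTop, s m < j7249_H S m := by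
  unfold j7249_H
  rw [dif_pos hS]
  exact Classical.choose_spec (j7249_dom S hS) s hs

theorem exists_g {Ω : Type} [LinearOrder Ω] (h : IsOm1 Ω) :
    ∃ g : Ω → ℕ → ℕ, ∀ a b : Ω, a < b → ∀ᶠ m in atTop, g a m < g b m := by
  have wf : WellFounded (fun a b : Ω => a < b) := h.wf.wf
  let F : (b : Ω) → ((a : Ω) → a < b → ℕ → ℕ) → ℕ → ℕ :=
    fun b IH => j7249_H (Set.range (fun a : Set.Iio b => IH a.1 a.2))
  refine ⟨wf.fix F, fun a b hab => ?_⟩
  have e : wf.fix F b = j7249_H (Set.range (fun a : Set.Iio b => wf.fix F a.1)) := wf.fix_eq F b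
  rw [e]
  have hc : (Set.range (fun a : Set.Iio b => wf.fix F a.1)).Countable := by
    have : Countable (Set.Iio b) := (h.cnt b).to_subtype
    exact Set.countable_range _
  exact j7249_H_spec _ hc _ ⟨⟨a, hab⟩, rfl⟩

end Pool.Agent.Helper695.PD.J2
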