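import Pool.Agent.Helper695.PD.Defs

set_option autoImplicit false

open Filter Topology

namespace Pool.Agent.Helper695.PD.J3


theorem exists_frame {Ω : Type} [LinearOrder Ω] (g : Ω → ℕ → ℕ)
    (hg : ∀ a b : Ω, a < b → ∀ᶠ m in atTop, g a m < g b m) :
    ∃ (X : Type) (_ : NormedAddCommGroup X) (_ : NormedSpace ℝ X) (_ : CompleteSpace X),
      Nonempty (Frame Ω X) := by
  classical
  -- indicator functions
  let ind : (ℕ × ℕ → Prop) → BoundedContinuousFunction (ℕ × ℕ) ℝ := fun P =>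
    BoundedContinuousFunction.ofNormedAddCommGroupDiscrete (fun e => if P e then (1 : ℝ) else 0) 1
      (by
        intro e
        by_cases h : P e
        · simp [h]
        · simp [h])
  have hind : ∀ (P : ℕ × ℕ → Prop) (e : ℕ × ℕ), ind P e = if P e then (1 : ℝ) else 0 := by
    intro P e
    rfl
  let dV : ℕ × ℕ → BoundedContinuousFunction (ℕ × ℕ) ℝ := fun e' => ind (fun e => e = e')
  let cV : ℕ → BoundedContinuousFunction (ℕ × ℕ) ℝ := fun m => ind (fun e => e.1 = m)
  let aV : Ω → BoundedContinuousFunction (ℕ × ℕ) ℝ := fun a => ind (fun e => e.2 ≤ g a e.1)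
  let S : Set (BoundedContinuousFunction (ℕ × ℕ) ℝ) := Set.range dV ∪ Set.range cV ∪ Set.range aV
  let W : Submodule ℝ (BoundedContinuousFunction (ℕ × ℕ) ℝ) := (Submodule.span ℝ S).topologicalClosure
  have hSW : ∀ v ∈ S, v ∈ W := fun v hv =>
    Submodule.le_topologicalClosure _ (Submodule.subset_span hv)
  have hW : IsClosed (W : Set (BoundedContinuousFunction (ℕ × ℕ) ℝ)) :=
    Submodule.isClosed_topologicalClosure _
  have : CompleteSpace W := hW.completeSpace_coe
  let ev : ℕ × ℕ → (BoundedContinuousFunction (ℕ × ℕ) ℝ) →L[ℝ] ℝ := fun e =>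
    BoundedContinuousFunction.evalCLM ℝ e
  refine ⟨W, inferInstance, inferInstance, inferInstance, ⟨?_⟩⟩
  refine
    { g := g
      g_lt := hg
      co := fun e => (ev e).comp W.subtypeL
      dd := fun e' => ⟨dV e', hSW _ (Or.inl (Or.inl ⟨e', rfl⟩))⟩
      cc := fun m => ⟨cV m, hSW _ (Or.inl (Or.inr ⟨m, rfl⟩))⟩
      aa := fun a => ⟨aV a, hSW _ (Or.inr ⟨a, rfl⟩)⟩
      co_dd := ?_
      co_cc := ?_
      co_aa := ?_
      co_le := ?_
      norm_le := ?_
      dense := ?_ }
  · intro e e'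
    have h := hind (fun x => x = e') e
    exact h.trans (by congr)
  · intro e m
    have h := hind (fun x => x.1 = m) e
    exact h.trans (by congr)
  · intro e a
    have h := hind (fun x => x.2 ≤ g a x.1) e
    exact h.trans (by congr)
  · intro e x
    have h1 := BoundedContinuousFunction.norm_coe_le_norm (x : BoundedContinuousFunction (ℕ × ℕ) ℝ) e
    rw [Real.norm_eq_abs] at h1
    exact h1
  · intro x r hr h
    have h1 : ‖(x : BoundedContinuousFunction (ℕ × ℕ) ℝ)‖ ≤ r := by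
      rw [BoundedContinuousFunction.norm_le hr]
      intro e
      rw [Real.norm_eq_abs]
      exact h e
    exact h1
  · rw [Set.eq_univ_iff_forall]
    intro x
    rw [Topology.IsInducing.subtypeVal.closure_eq_preimage_closure_image]
    rw [Set.mem_preimage]
    have hx : (x : BoundedContinuousFunction (ℕ × ℕ) ℝ) ∈
        closure ((Submodule.span ℝ S : Submodule ℝ _) : Set (BoundedContinuousFunction (ℕ × ℕ) ℝ)) := by
      have := x.2
      rw [← SetLike.mem_coe] at this
      rwa [Submodule.topologicalClosure_coe] at this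
    refine closure_mono ?_ hx
    intro v hv
    have hmap : Submodule.span ℝ S ≤ Submodule.map W.subtype
        (Submodule.span ℝ (Set.range (fun e' => (⟨dV e', hSW _ (Or.inl (Or.inl ⟨e', rfl⟩))⟩ : W)) ∪
          Set.range (fun m => (⟨cV m, hSW _ (Or.inl (Or.inr ⟨m, rfl⟩))⟩ : W)) ∪
          Set.range (fun a => (⟨aV a, hSW _ (Or.inr ⟨a, rfl⟩)⟩ : W)))) := by
      rw [Submodule.span_le]
      rintro w ((⟨e', rfl⟩ | ⟨m, rfl⟩) | ⟨a, rfl⟩)
      · exact ⟨⟨dV e', hSW _ (Or.inl (Or.inl ⟨e', rfl⟩))⟩,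
          Submodule.subset_span (Or.inl (Or.inl ⟨e', rfl⟩)), rfl⟩
      · exact ⟨⟨cV m, hSW _ (Or.inl (Or.inr ⟨m, rfl⟩))⟩,
          Submodule.subset_span (Or.inl (Or.inr ⟨m, rfl⟩)), rfl⟩
      · exact ⟨⟨aV a, hSW _ (Or.inr ⟨a, rfl⟩)⟩,
          Submodule.subset_span (Or.inr ⟨a, rfl⟩), rfl⟩
    obtain ⟨y, hy, hyv⟩ := hmap hv
    exact ⟨y, hy, hyv⟩

end Pool.Agent.Helper695.PD.J3
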