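import Pool.Agent.Helper695.PD.Defs

set_option autoImplicit false

open Filter Topology

namespace Pool.Agent.Helper695.PD.J5


section KS
open ZeroAtInfty

variable {ι : Type} [TopologicalSpace ι] [DiscreteTopology ι]

/-- a family tending to zero along `cofinite` as an element of `C₀`. -/
noncomputable def mkC0 (u : ι → ℝ) (hu : Tendsto u cofinite (𝓝 0)) : C₀(ι, ℝ) where
  toFun := u
  continuous_toFun := continuous_of_discreteTopology
  zero_at_infty' := by rw [cocompact_eq_cofinite]; exact hu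

@[simp] lemma mkC0_apply (u : ι → ℝ) (hu : Tendsto u cofinite (𝓝 0)) (i : ι) :
    mkC0 u hu i = u i := rfl

lemma C0_norm_le (u : C₀(ι, ℝ)) (r : ℝ) (hr : 0 ≤ r) (h : ∀ i, |u i| ≤ r) : ‖u‖ ≤ r := by
  rw [← ZeroAtInftyContinuousMap.norm_toBCF_eq_norm]
  exact (BoundedContinuousFunction.norm_le hr).mpr h

lemma C0_le_norm (u : C₀(ι, ℝ)) (i : ι) : |u i| ≤ ‖u‖ := by
  rw [← ZeroAtInftyContinuousMap.norm_toBCF_eq_norm]
  exact BoundedContinuousFunction.norm_coe_le_norm u.toBCF i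

open Classical in
lemma single_tendsto (i : ι) : Tendsto (Pi.single i (1 : ℝ) : ι → ℝ) cofinite (𝓝 0) := by
  refine tendsto_const_nhds.congr' ?_
  have : {i}ᶜ ∈ (cofinite : Filter ι) := (Set.finite_singleton i).compl_mem_cofinite
  filter_upwards [this] with j hj
  rw [Pi.single_eq_of_ne hj]

open Classical in
noncomputable def e0 (i : ι) : C₀(ι, ℝ) := mkC0 (Pi.single i 1) (single_tendsto i)

open Classical in
lemma e0_apply (i j : ι) : e0 i j = if j = i then (1 : ℝ) else 0 := by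
  simp [e0, Pi.single_apply]

lemma sum_apply (s : Finset ι) (c : ι → ℝ) (j : ι) [Decidable (j ∈ s)] :
    (∑ i ∈ s, c i • e0 i : C₀(ι, ℝ)) j = if j ∈ s then c j else 0 := by
  classical
  have h : ∀ s : Finset ι, (∑ i ∈ s, c i • e0 i : C₀(ι, ℝ)) j = ∑ i ∈ s, c i * (if j = i then (1 : ℝ) else 0) := by
    intro s
    induction s using Finset.induction_on with
    | empty => simp
    | insert a s ha ih =>
      rw [Finset.sum_insert ha, Finset.sum_insert ha, ZeroAtInftyContinuousMap.add_apply, ih,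
        ZeroAtInftyContinuousMap.smul_apply, e0_apply]
      rfl
  rw [h]
  simp

lemma hasSum_e0 (u : C₀(ι, ℝ)) : HasSum (fun i => u i • e0 i) u := by
  classical
  rw [HasSum, SummationFilter.unconditional_filter, Metric.tendsto_nhds]
  intro ε hε
  have hz : Tendsto u cofinite (𝓝 0) := by
    have := zero_at_infty u
    rwa [cocompact_eq_cofinite] at this
  have hfin : {i | ¬ |u i| < ε / 2}.Finite := by
    have := (Metric.tendsto_nhds.mp hz) (ε / 2) (by linarith)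
    simpa [Filter.eventually_cofinite, Real.dist_eq] using this
  refine Filter.eventually_atTop.mpr ⟨hfin.toFinset, fun s hs => ?_⟩
  rw [dist_eq_norm]
  refine lt_of_le_of_lt (C0_norm_le _ (ε / 2) (by linarith) fun j => ?_) (by linarith)
  rw [ZeroAtInftyContinuousMap.sub_apply, sum_apply]
  by_cases hj : j ∈ s
  · simp [hj]; linarith
  · rw [if_neg hj, zero_sub, abs_neg]
    by_contra hcon
    apply hj
    apply hs
    simp only [Set.Finite.mem_toFinset, Set.mem_ofPred_eq]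
    intro h
    exact hcon h.le

lemma summable_abs (lam : C₀(ι, ℝ) →L[ℝ] ℝ) : Summable (fun i => |lam (e0 i)|) := by
  classical
  refine summable_of_sum_le (c := ‖lam‖) (fun i => abs_nonneg _) fun s => ?_
  have h1 : ∑ i ∈ s, |lam (e0 i)| = lam (∑ i ∈ s, (SignType.sign (lam (e0 i)) : ℝ) • e0 i) := by
    rw [map_sum]
    refine Finset.sum_congr rfl fun i _ => ?_
    rw [map_smul, smul_eq_mul, sign_mul_self]
  rw [h1]
  refine (le_abs_self _).trans ((lam.le_opNorm _).trans ?_)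
  refine mul_le_of_le_one_right (norm_nonneg _) (C0_norm_le _ 1 zero_le_one fun j => ?_)
  rw [sum_apply]
  split_ifs
  · rcases lt_trichotomy (lam (e0 j)) 0 with h | h | h
    · simp [sign_neg h]
    · simp [h]
    · simp [sign_pos h]
  · simp

/-- the abstract separation lemma through `c₀`. -/
lemma sep_c0 {X : Type} [NormedAddCommGroup X] [NormedSpace ℝ X] [CompleteSpace X]
    (x : ι → X) (hx : Tendsto (fun i => ‖x i‖) cofinite (𝓝 0))
    (G : Submodule ℝ (X →L[ℝ] ℝ)) (f : X →L[ℝ] ℝ)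
    (h : ∀ φ ∈ G, ∃ i, 1 < |φ (x i) - f (x i)|) :
    ∃ y : X, (∀ φ ∈ G, φ y = 0) ∧ f y ≠ 0 := by
  have hT : ∀ φ : X →L[ℝ] ℝ, Tendsto (fun i => φ (x i)) cofinite (𝓝 0) := by
    intro φ
    refine squeeze_zero_norm (a := fun i => ‖φ‖ * ‖x i‖) (fun i => φ.le_opNorm _) ?_
    simpa using hx.const_mul ‖φ‖
  let T : (X →L[ℝ] ℝ) →ₗ[ℝ] C₀(ι, ℝ) :=
    { toFun := fun φ => mkC0 (fun i => φ (x i)) (hT φ)
      map_add' := fun φ ψ => by ext i; simp
      map_smul' := fun c φ => by ext i; simp }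
  have hTapp : ∀ φ i, T φ i = φ (x i) := fun φ i => rfl
  have hnot : T f ∉ (G.map T).topologicalClosure := by
    intro hmem
    have hmem' : T f ∈ closure ((G.map T : Submodule ℝ C₀(ι, ℝ)) : Set C₀(ι, ℝ)) := hmem
    rw [Metric.mem_closure_iff] at hmem'
    obtain ⟨b, hb, hdist⟩ := hmem' 1 one_pos
    obtain ⟨φ, hφ, rfl⟩ := hb
    obtain ⟨i, hi⟩ := h φ hφ
    have h1 := C0_le_norm (T f - T φ) i
    rw [dist_eq_norm] at hdist
    rw [ZeroAtInftyContinuousMap.sub_apply, hTapp, hTapp, abs_sub_comm] at h1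
    linarith
  obtain ⟨lam, u, hlt, hgt⟩ := geometric_hahn_banach_point_closed
    (G.map T).topologicalClosure.convex (G.map T).isClosed_topologicalClosure hnot
  have hu0 : u < 0 := by
    have := hgt 0 (Submodule.zero_mem _)
    simpa using this
  have hzero : ∀ φ ∈ G, lam (T φ) = 0 := by
    intro φ hφ
    by_contra hne
    have hmem : ((u / lam (T φ)) • T φ) ∈ (G.map T).topologicalClosure := by
      apply Submodule.smul_mem
      exact (G.map T).le_topologicalClosure ⟨φ, hφ, rfl⟩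
    have := hgt _ hmem
    rw [map_smul, smul_eq_mul, div_mul_cancel₀ _ hne] at this
    exact lt_irrefl _ this
  have hfne : lam (T f) ≠ 0 := by linarith
  have hsum : Summable (fun i => lam (e0 i) • x i) := by
    have hb : ∃ C : ℝ, ∀ᶠ i in cofinite, ‖x i‖ ≤ C := by
      refine ⟨1, ?_⟩
      filter_upwards [hx.eventually (gt_mem_nhds one_pos)] with i hi using hi.le
    obtain ⟨C, hC⟩ := hb
    refine Summable.of_norm_bounded_eventually (g := fun i => |lam (e0 i)| * C) ((summable_abs lam).mul_right C) ?_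
    filter_upwards [hC] with i hi
    rw [norm_smul, Real.norm_eq_abs]
    exact mul_le_mul_of_nonneg_left hi (abs_nonneg _)
  have key : ∀ φ : X →L[ℝ] ℝ, φ (∑' i, lam (e0 i) • x i) = lam (T φ) := by
    intro φ
    have h1 : HasSum (fun i => φ (lam (e0 i) • x i)) (φ (∑' i, lam (e0 i) • x i)) :=
      φ.hasSum hsum.hasSum
    have h2 : HasSum (fun i => lam ((T φ) i • e0 i)) (lam (T φ)) := lam.hasSum (hasSum_e0 (T φ))
    refine h1.unique ?_
    convert h2 using 2 with i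
    rw [map_smul, map_smul, hTapp, smul_eq_mul, smul_eq_mul, mul_comm]
  refine ⟨∑' i, lam (e0 i) • x i, fun φ hφ => ?_, ?_⟩
  · rw [key, hzero φ hφ]
  · rw [key]; exact hfne

end KS

/-- The compactness step. -/
lemma comp_step {X : Type} [NormedAddCommGroup X] [NormedSpace ℝ X]
    (G : Submodule ℝ (X →L[ℝ] ℝ)) (hG : BWClosed G) (f : X →L[ℝ] ℝ) (n : ℕ) (hn : 0 < n)
    (E : Finset X) (hE : ¬ ∃ φ ∈ G, ‖φ - f‖ ≤ n ∧ ∀ x ∈ E, |φ x - f x| ≤ 1) :
    ∃ F : Finset X, (∀ x ∈ F, ‖x‖ ≤ 1 / n) ∧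
      ¬ ∃ φ ∈ G, ‖φ - f‖ ≤ (n + 1 : ℕ) ∧ ∀ x, x ∈ E ∨ x ∈ F → |φ x - f x| ≤ 1 := by
  classical
  by_contra hcon
  push Not at hcon
  have hcon' : ∀ F : Finset {x : X // ‖x‖ ≤ 1 / (n : ℝ)}, ∃ φ ∈ G, ‖φ - f‖ ≤ (n + 1 : ℕ) ∧
      ∀ x, x ∈ E ∨ x ∈ F.image Subtype.val → |φ x - f x| ≤ 1 := by
    intro F
    apply hcon
    intro x hx
    obtain ⟨y, _, rfl⟩ := Finset.mem_image.mp hx
    exact y.2
  choose Φ hΦG hΦn hΦx using hcon'
  let U : Ultrafilter (Finset {x : X // ‖x‖ ≤ 1 / (n : ℝ)}) := Ultrafilter.of atTop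
  have hU : (U : Filter (Finset {x : X // ‖x‖ ≤ 1 / (n : ℝ)})) ≤ atTop := Ultrafilter.of_le atTop
  have hcomp := WeakDual.isCompact_closedBall (𝕜 := ℝ) (E := X) f ((n + 1 : ℕ) : ℝ)
  let Ψ : Finset {x : X // ‖x‖ ≤ 1 / (n : ℝ)} → WeakDual ℝ X := fun F => StrongDual.toWeakDual (Φ F)
  have hmem : ∀ F, Ψ F ∈ WeakDual.toStrongDual ⁻¹' Metric.closedBall f ((n + 1 : ℕ) : ℝ) := by
    intro F
    change dist (Φ F) f ≤ _
    rw [dist_eq_norm]
    exact hΦn F
  obtain ⟨a, ha, hlim⟩ := hcomp.ultrafilter_le_nhds (U.map Ψ) (by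
    rw [le_principal_iff, Ultrafilter.coe_map, Filter.mem_map]
    exact Filter.univ_mem' hmem)
  have hpt : ∀ x : X, Tendsto (fun F => Φ F x) U (𝓝 (a x)) := by
    intro x
    have h1 : Tendsto Ψ U (𝓝 a) := hlim
    have h2 : Continuous (fun b : WeakDual ℝ X => b x) := WeakDual.eval_continuous x
    exact (h2.tendsto a).comp h1
  let ψ : X →L[ℝ] ℝ := WeakDual.toStrongDual a
  have hψ : ∀ x, ψ x = a x := fun x => rfl
  have hψG : ψ ∈ G := by
    refine hG (⌈‖f‖⌉₊ + n + 1) ψ fun s ε hε => ?_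
    have hev : ∀ᶠ F in (U : Filter _), ∀ x ∈ s, |Φ F x - ψ x| < ε := by
      rw [Filter.eventually_all_finset]
      intro x _
      have := (Metric.tendsto_nhds.mp (hpt x)) ε hε
      simpa [Real.dist_eq, hψ] using this
    obtain ⟨F, hF⟩ := hev.exists
    refine ⟨Φ F, hΦG F, ?_, hF⟩
    have h1 : ‖Φ F‖ ≤ ‖Φ F - f‖ + ‖f‖ := by
      have := norm_add_le (Φ F - f) f
      simpa using this
    have h2 := hΦn F
    have h3 := Nat.le_ceil ‖f‖
    push_cast at h2 ⊢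
    linarith
  have hψE : ∀ x ∈ E, |ψ x - f x| ≤ 1 := by
    intro x hx
    have h1 : Tendsto (fun F => |Φ F x - f x|) U (𝓝 |a x - f x|) := ((hpt x).sub_const _).abs
    refine le_of_tendsto h1 (Filter.Eventually.of_forall fun F => hΦx F x (Or.inl hx))
  have hψB : ∀ x, ‖x‖ ≤ 1 / (n : ℝ) → |ψ x - f x| ≤ 1 := by
    intro x hx
    have h1 : Tendsto (fun F => |Φ F x - f x|) U (𝓝 |a x - f x|) := ((hpt x).sub_const _).abs
    refine le_of_tendsto h1 ?_
    have h2 : ∀ᶠ F in (atTop : Filter (Finset {x : X // ‖x‖ ≤ 1 / (n : ℝ)})), |Φ F x - f x| ≤ 1 := by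
      refine eventually_atTop.mpr ⟨{⟨x, hx⟩}, fun F hF => ?_⟩
      apply hΦx F x
      right
      rw [Finset.mem_image]
      exact ⟨⟨x, hx⟩, hF (Finset.mem_singleton_self _), rfl⟩
    exact hU h2
  apply hE
  refine ⟨ψ, hψG, ?_, hψE⟩
  have hn' : (0 : ℝ) < n := by exact_mod_cast hn
  refine ContinuousLinearMap.opNorm_le_bound _ hn'.le fun x => ?_
  by_cases hx : x = 0
  · simp [hx]
  have hxn : 0 < ‖x‖ := norm_pos_iff.mpr hx
  have h1 : ‖((n * ‖x‖)⁻¹ : ℝ) • x‖ ≤ 1 / (n : ℝ) := by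
    rw [norm_smul, norm_inv, norm_mul, norm_norm, Real.norm_natCast]
    rw [mul_inv, mul_assoc, inv_mul_cancel₀ hxn.ne', mul_one, one_div]
  have h2 := hψB _ h1
  rw [map_smul, map_smul, ← smul_sub, smul_eq_mul, abs_mul, abs_inv,
    abs_of_pos (mul_pos hn' hxn)] at h2
  rw [sub_apply, Real.norm_eq_abs]
  rw [inv_mul_le_iff₀ (mul_pos hn' hxn), mul_one] at h2
  exact h2

theorem krein_smulian {X : Type} [NormedAddCommGroup X] [NormedSpace ℝ X] [CompleteSpace X]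
    (G : Submodule ℝ (X →L[ℝ] ℝ)) (hG : BWClosed G) (f : X →L[ℝ] ℝ) (hf : f ∉ G) :
    ∃ x : X, (∀ φ ∈ G, φ x = 0) ∧ f x ≠ 0 := by
  classical
  -- norm distance
  have hdist : ∃ δ : ℝ, 0 < δ ∧ ∀ φ ∈ G, δ < ‖φ - f‖ := by
    by_contra hcon
    push Not at hcon
    apply hf
    refine hG (⌈‖f‖⌉₊ + 1) f fun s ε hε => ?_
    obtain ⟨R, hR0, hR⟩ : ∃ R : ℝ, 0 < R ∧ ∀ x ∈ s, ‖x‖ ≤ R := by
      refine ⟨∑ x ∈ s, ‖x‖ + 1, by positivity, fun x hx => ?_⟩
      have := Finset.single_le_sum (f := fun x : X => ‖x‖) (fun _ _ => norm_nonneg _) hx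
      linarith
    obtain ⟨φ, hφ, hle⟩ := hcon (min 1 (ε / (2 * R))) (by positivity)
    refine ⟨φ, hφ, ?_, fun x hx => ?_⟩
    · have h1 : ‖φ‖ ≤ ‖φ - f‖ + ‖f‖ := by
        have := norm_add_le (φ - f) f
        simpa using this
      have h2 : ‖φ - f‖ ≤ 1 := hle.trans (min_le_left _ _)
      have h3 := Nat.le_ceil ‖f‖
      push_cast
      linarith
    · have h1 : |φ x - f x| ≤ ‖φ - f‖ * ‖x‖ := by
        have := (φ - f).le_opNorm x
        simpa using this
      have h2 : ‖φ - f‖ ≤ ε / (2 * R) := hle.trans (min_le_right _ _)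
      have h3 : ‖φ - f‖ * ‖x‖ ≤ ε / (2 * R) * R :=
        mul_le_mul h2 (hR x hx) (norm_nonneg _) (by positivity)
      have h4 : ε / (2 * R) * R = ε / 2 := by field_simp
      linarith
  obtain ⟨δ, hδ, hGδ⟩ := hdist
  -- rescale
  let g : X →L[ℝ] ℝ := δ⁻¹ • f
  have hg : ∀ φ ∈ G, ¬ ‖φ - g‖ ≤ 1 := by
    intro φ hφ hle
    have h1 := hGδ (δ • φ) (G.smul_mem _ hφ)
    have h2 : δ • φ - f = δ • (φ - g) := by
      simp only [g, smul_sub, smul_smul, mul_inv_cancel₀ hδ.ne', one_smul]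
    rw [h2, norm_smul, Real.norm_eq_abs, abs_of_pos hδ] at h1
    nlinarith
  suffices hs : ∃ x : X, (∀ φ ∈ G, φ x = 0) ∧ g x ≠ 0 by
    obtain ⟨x, hx, hgx⟩ := hs
    refine ⟨x, hx, fun h => hgx ?_⟩
    simp [g, h]
  -- build the sets
  let P : ℕ → Finset X → Prop := fun n E => ¬ ∃ φ ∈ G, ‖φ - g‖ ≤ (n + 1 : ℕ) ∧ ∀ x ∈ E, |φ x - g x| ≤ 1
  have h0 : P 0 ∅ := by
    rintro ⟨φ, hφ, hle, -⟩
    exact hg φ hφ (by simpa using hle)
  have hstep : ∀ n E, P n E → ∃ F : Finset X, (∀ x ∈ F, ‖x‖ ≤ 1 / ((n + 1 : ℕ) : ℝ)) ∧ P (n + 1) (E ∪ F) := by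
    intro n E hE
    obtain ⟨F, hF, hF'⟩ := comp_step G hG g (n + 1) (Nat.succ_pos n) E hE
    refine ⟨F, hF, ?_⟩
    rintro ⟨φ, hφ, hle, hx⟩
    exact hF' ⟨φ, hφ, hle, fun x hx' => hx x (Finset.mem_union.mpr hx')⟩
  choose! Fn hFn hFnP using hstep
  let En : ℕ → Finset X := fun n => Nat.rec ∅ (fun k E => E ∪ Fn k E) n
  have hE0 : En 0 = ∅ := rfl
  have hEs : ∀ n, En (n + 1) = En n ∪ Fn n (En n) := fun n => rfl
  have hEP : ∀ n, P n (En n) := by
    intro n
    induction n with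
    | zero => exact h0
    | succ k ih => rw [hEs]; exact hFnP k _ ih
  have hEmem : ∀ n, ∀ x ∈ En n, ∃ k, x ∈ Fn k (En k) := by
    intro n
    induction n with
    | zero => intro x hx; simp [hE0] at hx
    | succ k ih =>
      intro x hx
      rw [hEs, Finset.mem_union] at hx
      rcases hx with hx | hx
      · exact ih x hx
      · exact ⟨k, hx⟩
  let ι : Type := Σ n : ℕ, {x : X // x ∈ Fn n (En n)}
  let _ : TopologicalSpace ι := ⊥
  have : DiscreteTopology ι := ⟨rfl⟩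
  refine sep_c0 (ι := ι) (fun i => (i.2 : X)) ?_ G g ?_
  · rw [Metric.tendsto_nhds]
    intro ε hε
    rw [Filter.eventually_cofinite]
    obtain ⟨N, hN⟩ := exists_nat_one_div_lt hε
    refine Set.Finite.subset (s := ⋃ n ∈ Finset.range N, Set.range (fun x : {x : X // x ∈ Fn n (En n)} => (⟨n, x⟩ : ι))) ?_ ?_
    · refine Set.Finite.biUnion (Finset.finite_toSet _) fun n _ => Set.finite_range _
    · rintro ⟨n, x⟩ hx
      have hx' : ε ≤ ‖(x : X)‖ := by
        have h := hx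
        simp only [Set.mem_ofPred_eq, dist_zero_right, norm_norm, not_lt] at h
        exact h
      simp only [Set.mem_iUnion, Set.mem_range, Finset.mem_range]
      refine ⟨n, ?_, x, rfl⟩
      by_contra hcon
      push Not at hcon
      have h1 := hFn n (En n) (hEP n) x.1 x.2
      have h2 : (1 : ℝ) / ((n + 1 : ℕ) : ℝ) ≤ 1 / ((N : ℝ) + 1) := by
        apply one_div_le_one_div_of_le (by positivity)
        push_cast
        have : (N : ℝ) ≤ n := by exact_mod_cast hcon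
        linarith
      linarith
  · intro φ hφ
    obtain ⟨n, hn⟩ := exists_nat_ge ‖φ - g‖
    have h1 := hEP n
    simp only [P] at h1
    push Not at h1
    obtain ⟨x, hx, hx1⟩ := h1 φ hφ (by push_cast; linarith)
    obtain ⟨k, hk⟩ := hEmem n x hx
    exact ⟨⟨k, ⟨x, hk⟩⟩, hx1⟩

end Pool.Agent.Helper695.PD.J5
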