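import Pool.Agent.Helper695.PD.Defs

set_option autoImplicit false

open Filter Topology

namespace Pool.Agent.Helper695.PD.J9a


theorem ps_limsup (u : ℕ → ℝ) (C : ℝ) (h0 : ∀ k, 0 ≤ u k) (hC : ∀ k, u k ≤ C) :
    ∃ L : ℝ, (∀ ε > 0, ∀ᶠ k in atTop, u k < L + ε) ∧ (∀ ε > 0, ∃ᶠ k in atTop, L - ε < u k) := by
  have hb : IsBoundedUnder (· ≤ ·) atTop u := isBoundedUnder_of ⟨C, hC⟩
  have hb' : IsBoundedUnder (· ≥ ·) atTop u := isBoundedUnder_of ⟨0, h0⟩
  refine ⟨limsup u atTop, ?_, ?_⟩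
  · intro ε hε
    exact eventually_lt_of_limsup_lt (by linarith) hb
  · intro ε hε
    exact frequently_lt_of_lt_limsup hb'.isCoboundedUnder_le (by linarith)

theorem ps_finset {Ω : Type} [LinearOrder Ω] (g : Ω → ℕ → ℕ)
    (hg : ∀ a b : Ω, a < b → ∀ᶠ m in atTop, g a m < g b m) (a b : Ω) (hab : a ≤ b) :
    ∃ F : Finset (ℕ × ℕ), ∀ e : ℕ × ℕ, e.2 ≤ g a e.1 → e.2 ≤ g b e.1 ∨ e ∈ F := by
  rcases hab.eq_or_lt with rfl | hlt
  · exact ⟨∅, fun e he => Or.inl he⟩
  · obtain ⟨M, hM⟩ := eventually_atTop.mp (hg a b hlt)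
    refine ⟨(Finset.range M) ×ˢ (Finset.range ((Finset.range M).sup (g a) + 1)), fun e he => ?_⟩
    by_cases h1 : e.1 < M
    · right
      rw [Finset.mem_product, Finset.mem_range, Finset.mem_range]
      refine ⟨h1, ?_⟩
      have h2 : g a e.1 ≤ (Finset.range M).sup (g a) := Finset.le_sup (Finset.mem_range.mpr h1)
      omega
    · left
      exact he.trans (hM e.1 (by omega)).le

theorem pos_subseq {Ω : Type} [LinearOrder Ω] (hO : IsOm1 Ω) (g : Ω → ℕ → ℕ)
    (hg : ∀ a b : Ω, a < b → ∀ᶠ m in atTop, g a m < g b m)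
    (l : ℕ → ℕ × ℕ → ℝ) (h0 : ∀ k e, 0 ≤ l k e) (hs : ∀ k, Summable (l k)) (C : ℝ)
    (hC : ∀ k, ∑' e, l k e ≤ C) (hlim : ∀ e, Tendsto (fun k => l k e) atTop (𝓝 0)) :
    ∃ φ : ℕ → ℕ, StrictMono φ ∧ ∃ (c : Ω) (t : ℝ), ∀ a, c ≤ a →
      Tendsto (fun k => ∑' e, (if e.2 ≤ g a e.1 then l (φ k) e else 0)) atTop (𝓝 t) := by
  classical
  set P : ℕ → Ω → ℝ := fun k a => ∑' e : ℕ × ℕ, (if e.2 ≤ g a e.1 then l k e else 0) with hP
  have hsum : ∀ k a, Summable (fun e : ℕ × ℕ => if e.2 ≤ g a e.1 then l k e else 0) := by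
    intro k a
    apply Summable.of_nonneg_of_le _ _ (hs k)
    · intro e; split_ifs
      · exact h0 k e
      · exact le_refl _
    · intro e; split_ifs
      · exact le_refl _
      · exact h0 k e
  have hP0 : ∀ k a, 0 ≤ P k a := by
    intro k a
    apply tsum_nonneg
    intro e; split_ifs
    · exact h0 k e
    · exact le_refl _
  have hPC : ∀ k a, P k a ≤ C := by
    intro k a
    refine le_trans ((hsum k a).tsum_le_tsum ?_ (hs k)) (hC k)
    intro e
    show (if e.2 ≤ g a e.1 then l k e else 0) ≤ l k e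
    split_ifs
    · exact le_refl _
    · exact h0 k e
  -- comparison
  have hcomp : ∀ a b : Ω, a ≤ b → ∃ σ : ℕ → ℝ, Tendsto σ atTop (𝓝 0) ∧
      ∀ k, P k a ≤ P k b + σ k := by
    intro a b hab
    obtain ⟨F, hF⟩ := ps_finset g hg a b hab
    refine ⟨fun k => ∑ e ∈ F, l k e, ?_, ?_⟩
    · have := tendsto_finset_sum F (fun e _ => hlim e)
      simpa using this
    · intro k
      have h1 : Summable (fun e : ℕ × ℕ => if e ∈ F then l k e else 0) := by
        apply summable_of_ne_finset_zero (s := F)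
        intro e he
        rw [if_neg he]
      have h2 : ∑' e : ℕ × ℕ, (if e ∈ F then l k e else 0) = ∑ e ∈ F, l k e := by
        rw [tsum_eq_sum (s := F)]
        · exact Finset.sum_congr rfl (fun e he => if_pos he)
        · intro e he
          rw [if_neg he]
      show P k a ≤ P k b + ∑ e ∈ F, l k e
      rw [← h2, hP]
      show ∑' e : ℕ × ℕ, (if e.2 ≤ g a e.1 then l k e else 0)
        ≤ ∑' e : ℕ × ℕ, (if e.2 ≤ g b e.1 then l k e else 0) + ∑' e : ℕ × ℕ, (if e ∈ F then l k e else 0)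
      rw [← (hsum k b).tsum_add h1]
      apply (hsum k a).tsum_le_tsum _ ((hsum k b).add h1)
      intro e
      show (if e.2 ≤ g a e.1 then l k e else 0)
        ≤ (if e.2 ≤ g b e.1 then l k e else 0) + (if e ∈ F then l k e else 0)
      have h3 := h0 k e
      by_cases e1 : e.2 ≤ g a e.1
      · rcases hF e e1 with e2 | e2
        · rw [if_pos e1, if_pos e2]
          split_ifs <;> linarith
        · rw [if_pos e1, if_pos e2]
          split_ifs <;> linarith
      · rw [if_neg e1]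
        split_ifs <;> linarith
  choose L hL1 hL2 using fun a => ps_limsup (fun k => P k a) C (fun k => hP0 k a) (fun k => hPC k a)
  have hLmono : ∀ a b : Ω, a ≤ b → L a ≤ L b := by
    intro a b hab
    obtain ⟨σ, hσ, hle⟩ := hcomp a b hab
    apply le_of_forall_pos_le_add
    intro ε hε
    have h1 := hL2 a (ε / 3) (by positivity)
    have h2 := hL1 b (ε / 3) (by positivity)
    have h3 : ∀ᶠ k in atTop, σ k < ε / 3 := (tendsto_order.mp hσ).2 _ (by positivity)
    obtain ⟨k, e1, e2, e3⟩ := (h1.and_eventually (h2.and h3)).exists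
    have := hle k
    linarith
  have hLC : ∀ a, L a ≤ C := by
    intro a
    apply le_of_forall_pos_le_add
    intro ε hε
    obtain ⟨k, hk⟩ := (hL2 a ε hε).exists
    have := hPC k a
    linarith
  obtain ⟨a0, -⟩ := hO.bdd ∅ Set.countable_empty
  have hne : (Set.range L).Nonempty := ⟨_, a0, rfl⟩
  have hbd : BddAbove (Set.range L) := ⟨C, by rintro _ ⟨a, rfl⟩; exact hLC a⟩
  set S := sSup (Set.range L) with hS
  have hch : ∀ n : ℕ, ∃ a, S - 1 / ((n : ℝ) + 1) < L a := by
    intro n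
    have h1 : S - 1 / ((n : ℝ) + 1) < S := by
      have : 0 < 1 / ((n : ℝ) + 1) := by positivity
      linarith
    obtain ⟨_, ⟨a, rfl⟩, ha⟩ := exists_lt_of_lt_csSup hne h1
    exact ⟨a, ha⟩
  choose an han using hch
  obtain ⟨c, hc⟩ := hO.bdd (Set.range an) (Set.countable_range an)
  have hSc : ∀ a, c ≤ a → L a = S := by
    intro a hca
    apply le_antisymm (le_csSup hbd ⟨a, rfl⟩)
    apply le_of_forall_pos_le_add
    intro ε hε
    obtain ⟨n, hn⟩ := exists_nat_one_div_lt hε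
    have h1 := han n
    have h2 := hLmono (an n) a ((hc _ ⟨n, rfl⟩).le.trans hca)
    linarith
  obtain ⟨φ, hφ, hφ2⟩ := extraction_forall_of_frequently
    (P := fun n k => L c - 1 / ((n : ℝ) + 1) < P k c)
    (fun n => hL2 c (1 / ((n : ℝ) + 1)) (by positivity))
  refine ⟨φ, hφ, c, S, fun a hca => ?_⟩
  show Tendsto (fun k => P (φ k) a) atTop (𝓝 S)
  obtain ⟨σ, hσ, hle⟩ := hcomp c a hca
  have hlow : Tendsto (fun n : ℕ => S - 1 / ((n : ℝ) + 1) - σ (φ n)) atTop (𝓝 S) := by
    have h1 : Tendsto (fun n : ℕ => 1 / ((n : ℝ) + 1)) atTop (𝓝 0) :=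
      tendsto_one_div_add_atTop_nhds_zero_nat
    have h2 := hσ.comp hφ.tendsto_atTop
    have h3 := (tendsto_const_nhds (x := S)).sub h1 |>.sub h2
    simpa using h3
  rw [tendsto_order]
  constructor
  · intro b hb
    have h1 := (tendsto_order.mp hlow).1 b hb
    filter_upwards [h1] with n hn
    have h2 := hφ2 n
    have h3 := hle (φ n)
    rw [hSc c le_rfl] at h2
    linarith
  · intro b hb
    have h1 := hL1 a (b - S) (by linarith)
    have h2 := hφ.tendsto_atTop.eventually h1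
    filter_upwards [h2] with n hn
    rw [hSc a hca] at hn
    linarith

end Pool.Agent.Helper695.PD.J9a
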