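import Pool.Agent.Helper695.PD.Defs

set_option autoImplicit false

open Filter Topology

namespace Pool.Agent.Helper695.PD.J9b


theorem sum_coef_le {Ω : Type} [LinearOrder Ω] {X : Type} [NormedAddCommGroup X]
    [NormedSpace ℝ X] (F : Frame Ω X) (f : X →L[ℝ] ℝ) (T : Finset (ℕ × ℕ)) :
    ∑ e ∈ T, |f (F.dd e)| ≤ ‖f‖ := by
  set s : ℕ × ℕ → ℝ := fun e => if 0 ≤ f (F.dd e) then 1 else -1 with hs
  have hs1 : ∀ e, |s e| ≤ 1 := by
    intro e
    simp only [hs]
    split_ifs <;> norm_num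
  set x : X := ∑ e ∈ T, s e • F.dd e with hx
  have hfx : f x = ∑ e ∈ T, |f (F.dd e)| := by
    rw [hx, map_sum]
    refine Finset.sum_congr rfl fun e _ => ?_
    rw [map_smul, smul_eq_mul]
    simp only [hs]
    split_ifs with h
    · rw [one_mul, abs_of_nonneg h]
    · rw [abs_of_neg (not_le.1 h)]
      ring
  have hxn : ‖x‖ ≤ 1 := by
    apply F.norm_le x 1 zero_le_one
    intro e
    have h1 : F.co e x = if e ∈ T then s e else 0 := by
      rw [hx, map_sum]
      rw [← Finset.sum_ite_eq T e s]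
      refine Finset.sum_congr rfl fun e' _ => ?_
      rw [map_smul, smul_eq_mul, F.co_dd]
      split_ifs <;> simp
    rw [h1]
    split_ifs
    · exact hs1 e
    · rw [abs_zero]; exact zero_le_one
  rw [← hfx]
  calc f x ≤ ‖f x‖ := le_abs_self _
    _ ≤ ‖f‖ * ‖x‖ := f.le_opNorm x
    _ ≤ ‖f‖ * 1 := mul_le_mul_of_nonneg_left hxn (norm_nonneg _)
    _ = ‖f‖ := mul_one _

theorem summ_co {Ω : Type} [LinearOrder Ω] {X : Type} [NormedAddCommGroup X]
    [NormedSpace ℝ X] (F : Frame Ω X) (l : ℕ × ℕ → ℝ) (hl : Summable (fun e => |l e|)) (x : X) :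
    Summable (fun e => l e * F.co e x) ∧ |∑' e, l e * F.co e x| ≤ (∑' e, |l e|) * ‖x‖ := by
  have hb : ∀ e, ‖l e * F.co e x‖ ≤ |l e| * ‖x‖ := by
    intro e
    rw [Real.norm_eq_abs, abs_mul]
    exact mul_le_mul_of_nonneg_left (F.co_le e x) (abs_nonneg _)
  have hsum := hl.mul_right ‖x‖
  refine ⟨Summable.of_norm_bounded hsum hb, ?_⟩
  have h1 := tsum_of_norm_bounded hsum.hasSum hb
  rw [tsum_mul_right] at h1
  exact h1

theorem summable_coef {Ω : Type} [LinearOrder Ω] {X : Type} [NormedAddCommGroup X]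
    [NormedSpace ℝ X] (F : Frame Ω X) (f : X →L[ℝ] ℝ) :
    Summable (fun e => |f (F.dd e)|) ∧ ∑' e, |f (F.dd e)| ≤ ‖f‖ := by
  have hsum : Summable (fun e => |f (F.dd e)|) :=
    summable_of_sum_le (fun e => abs_nonneg _) (sum_coef_le F f)
  exact ⟨hsum, hsum.tsum_le_of_sum_le (sum_coef_le F f)⟩

theorem exists_l1_part {Ω : Type} [LinearOrder Ω] {X : Type} [NormedAddCommGroup X]
    [NormedSpace ℝ X] (F : Frame Ω X) (l : ℕ × ℕ → ℝ) (hl : Summable (fun e => |l e|)) :
    ∃ L : X →L[ℝ] ℝ, (∀ x, L x = ∑' e, l e * F.co e x) ∧ ‖L‖ ≤ ∑' e, |l e| ∧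
      (∀ e, L (F.dd e) = l e) ∧
      (∀ a, L (F.aa a) = ∑' e, (if e.2 ≤ F.g a e.1 then l e else 0)) := by
  have hs := fun x => (summ_co F l hl x).1
  set L0 : X →ₗ[ℝ] ℝ :=
    { toFun := fun x => ∑' e, l e * F.co e x
      map_add' := fun x y => by
        rw [← (hs x).tsum_add (hs y)]
        refine tsum_congr fun e => ?_
        rw [map_add, mul_add]
      map_smul' := fun c x => by
        rw [RingHom.id_apply, smul_eq_mul, ← tsum_mul_left]
        refine tsum_congr fun e => ?_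
        rw [map_smul, smul_eq_mul]
        ring } with hL0
  have hC : 0 ≤ ∑' e, |l e| := tsum_nonneg fun e => abs_nonneg _
  refine ⟨L0.mkContinuous (∑' e, |l e|) (fun x => (summ_co F l hl x).2), fun x => rfl,
    LinearMap.mkContinuous_norm_le _ hC _, ?_, ?_⟩
  · intro e
    show ∑' e', l e' * F.co e' (F.dd e) = l e
    rw [tsum_eq_single e]
    · rw [F.co_dd, if_pos rfl, mul_one]
    · intro e' he'
      rw [F.co_dd, if_neg he', mul_zero]
  · intro a
    show ∑' e', l e' * F.co e' (F.aa a) = _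
    refine tsum_congr fun e => ?_
    rw [F.co_aa]
    split_ifs <;> simp

end Pool.Agent.Helper695.PD.J9b
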