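import Pool.Agent.Helper695.PD.Defs

set_option autoImplicit false

open Filter Topology

namespace Pool.Agent.Helper695.PD.J9c


theorem diag_subseq {ι : Type} [Countable ι] (v : ℕ → ι → ℝ) (C : ι → ℝ)
    (hC : ∀ k i, |v k i| ≤ C i) :
    ∃ φ : ℕ → ℕ, StrictMono φ ∧ ∀ i, ∃ t : ℝ, Tendsto (fun k => v (φ k) i) atTop (𝓝 t) := by
  have hK : IsCompact (Set.pi Set.univ (fun i : ι => Set.Icc (-C i) (C i))) :=
    isCompact_univ_pi fun i => isCompact_Icc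
  have hv : ∀ k, v k ∈ Set.pi Set.univ (fun i : ι => Set.Icc (-C i) (C i)) := by
    intro k i _
    exact abs_le.mp (hC k i)
  obtain ⟨a, _, φ, hφ, ha⟩ := hK.tendsto_subseq hv
  exact ⟨φ, hφ, fun i => ⟨a i, (tendsto_pi_nhds.mp ha) i⟩⟩

end Pool.Agent.Helper695.PD.J9c
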