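import Pool.Agent.Helper695.PD.WS
import Pool.Agent.Helper695.PD.J1
import Pool.Agent.Helper695.PD.J2
import Pool.Agent.Helper695.PD.J3
import Pool.Agent.Helper695.PD.J5
import Pool.Agent.Helper695.PD.J10A
import Pool.Agent.Helper695.PD.J10B
import Pool.Agent.Helper695.PD.J11
import Pool.Agent.Helper695.PD.J14
import Pool.Agent.Helper695.PD.J15
import Pool.Agent.Helper695.PD.J16
import Pool.Agent.Helper695.PD.J17
import Pool.Agent.Helper695.PD.J18

set_option autoImplicit false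

open Filter Topology

namespace Pool.Agent.Helper695.PD

open Pool.Agent.Helper695.PD.J1
open Pool.Agent.Helper695.PD.J2
open Pool.Agent.Helper695.PD.J3
open Pool.Agent.Helper695.PD.J5
open Pool.Agent.Helper695.PD.J10A
open Pool.Agent.Helper695.PD.J10B
open Pool.Agent.Helper695.PD.J11
open Pool.Agent.Helper695.PD.J14
open Pool.Agent.Helper695.PD.J15
open Pool.Agent.Helper695.PD.J16
open Pool.Agent.Helper695.PD.J17
open Pool.Agent.Helper695.PD.J18

section
variable {Ω : Type} [LinearOrder Ω] {X : Type} [NormedAddCommGroup X] [NormedSpace ℝ X]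

theorem agree_of_approx (hO : IsOm1 Ω) [CompleteSpace X] (F : Frame Ω X)
    (G : Submodule ℝ (X →L[ℝ] ℝ)) (hG : SeqCl G) (m : ℕ) (f : X →L[ℝ] ℝ)
    (hf : ∀ s : Finset X, ∀ ε : ℝ, 0 < ε → ∃ φ ∈ G, ‖φ‖ ≤ m ∧ ∀ x ∈ s, |φ x - f x| < ε)
    (c : Ω) : ∃ h ∈ G, ‖h‖ ≤ (m : ℝ) ∧ Agree F c h f := by
  classical
  have hS : (Set.range F.dd ∪ Set.range F.cc ∪ F.aa '' (Set.Iio c)).Countable :=
    ((Set.countable_range _).union (Set.countable_range _)).union ((hO.cnt c).image _)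
  have hSn : (Set.range F.dd ∪ Set.range F.cc ∪ F.aa '' (Set.Iio c)).Nonempty :=
    ⟨F.dd (0, 0), Or.inl (Or.inl ⟨_, rfl⟩)⟩
  obtain ⟨x, hx⟩ := hS.exists_eq_range hSn
  have hstep : ∀ k : ℕ, ∃ φ ∈ G, ‖φ‖ ≤ (m : ℝ) ∧ ∀ i, i ≤ k → |φ (x i) - f (x i)| < 1 / ((k : ℝ) + 1) := by
    intro k
    obtain ⟨φ, h1, h2, h3⟩ := hf ((Finset.range (k + 1)).image x) (1 / ((k : ℝ) + 1)) (by positivity)
    refine ⟨φ, h1, h2, fun i hi => h3 _ ?_⟩
    exact Finset.mem_image.2 ⟨i, Finset.mem_range.2 (by omega), rfl⟩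
  choose u hu1 hu2 hu3 using hstep
  obtain ⟨φ, hφ, h, hw, hn⟩ := ws hO F u m hu2
  have hh : h ∈ G := hG _ h (fun n => hu1 _) hw
  have heq : ∀ i, h (x i) = f (x i) := by
    intro i
    have h1 : Tendsto (fun n => u (φ n) (x i)) atTop (𝓝 (f (x i))) := by
      rw [tendsto_iff_dist_tendsto_zero]
      have h0 : Tendsto (fun n : ℕ => 1 / ((n : ℝ) + 1)) atTop (𝓝 0) :=
        tendsto_one_div_add_atTop_nhds_zero_nat
      have h0' := h0.comp hφ.tendsto_atTop
      refine squeeze_zero' (Eventually.of_forall fun n => dist_nonneg) ?_ h0'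
      filter_upwards [eventually_ge_atTop i] with n hn'
      rw [Real.dist_eq]
      exact (hu3 (φ n) i (hn'.trans (hφ.le_apply))).le
    exact tendsto_nhds_unique (hw (x i)) h1
  have hall : ∀ y ∈ Set.range F.dd ∪ Set.range F.cc ∪ F.aa '' (Set.Iio c), h y = f y := by
    intro y hy
    rw [hx] at hy
    obtain ⟨i, rfl⟩ := hy
    exact heq i
  exact ⟨h, hh, hn, fun e => hall _ (Or.inl (Or.inl ⟨e, rfl⟩)),
    fun k => hall _ (Or.inl (Or.inr ⟨k, rfl⟩)), fun a ha => hall _ (Or.inr ⟨a, ha, rfl⟩)⟩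

theorem bw_of_unbounded (hO : IsOm1 Ω) [CompleteSpace X] (F : Frame Ω X)
    (pt : Ω → X →L[ℝ] ℝ) (hpt : ∀ c, IsPt F c (pt c))
    (G : Submodule ℝ (X →L[ℝ] ℝ)) (hG : SeqCl G) (hU : ∀ c, ∃ b ∈ {b | pt b ∈ G}, c < b) :
    BWClosed G := by
  intro m f hf
  obtain ⟨c₀, -⟩ := hO.bdd ∅ Set.countable_empty
  obtain ⟨c, -, ⟨b, hb, hbU, hbc, hcof⟩, t, ht⟩ := lemmaA hO F G hG f m
    (agree_of_approx hO F G hG m f hf) _ hU c₀
  have hp : pt c ∈ G := hG (fun k => pt (b k)) _ hbU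
    (pt_wtend hO F b hb c hbc hcof _ (fun k => hpt _) _ (hpt c))
  have h1 := ht (pt c) (hpt c)
  have h2 := G.sub_mem h1 (G.smul_mem t hp)
  simpa using h2

theorem top_of_bw [CompleteSpace X] (G : Submodule ℝ (X →L[ℝ] ℝ)) (hT : Total G)
    (hB : BWClosed G) : G = ⊤ := by
  rw [eq_top_iff]
  intro f _
  by_contra hf
  obtain ⟨x, hx, hfx⟩ := krein_smulian G hB f hf
  have hx0 : x ≠ 0 := by
    rintro rfl
    exact hfx (map_zero f)
  obtain ⟨φ, hφ, hne⟩ := hT x hx0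
  exact hne (hx φ hφ)

theorem T_main (hO : IsOm1 Ω) [CompleteSpace X] (F : Frame Ω X)
    (G : Submodule ℝ (X →L[ℝ] ℝ)) (hG : SeqCl G) (hT : Total G) : G = ⊤ := by
  classical
  choose pt hpt _hptn using fun c => exists_pt hO F c
  choose col hcol _hcoln using fun m => exists_col F m
  by_contra hne
  have hnU : ¬ ∀ c, ∃ b ∈ {b | pt b ∈ G}, c < b := fun hU =>
    hne (top_of_bw G hT (bw_of_unbounded hO F pt hpt G hG hU))
  push Not at hnU
  obtain ⟨c1, hc1⟩ := hnU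
  have hnB : ¬ BWClosed G := fun hB => hne (top_of_bw G hT hB)
  unfold BWClosed at hnB
  push Not at hnB
  obtain ⟨m, f, hf, hfG⟩ := hnB
  have hmax : ∀ c : Ω, ∃ b ∈ (Set.univ : Set Ω), c < b := by
    intro c
    obtain ⟨b, hb⟩ := hO.bdd {c} (Set.countable_singleton c)
    exact ⟨b, trivial, hb c rfl⟩
  have hf' : ∀ s : Finset X, ∀ ε : ℝ, 0 < ε → ∃ φ ∈ G, ‖φ‖ ≤ m ∧ ∀ x ∈ s, |φ x - f x| < ε := hf
  have hA := lemmaA hO F G hG f m (agree_of_approx hO F G hG m f hf') _ hmax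
  have hle : G ≤ G ⊔ Submodule.span ℝ {f} := le_sup_left
  have hfG' : f ∈ G ⊔ Submodule.span ℝ {f} :=
    Submodule.mem_sup_right (Submodule.mem_span_singleton_self f)
  have hG' : SeqCl (G ⊔ Submodule.span ℝ {f}) := seqCl_sup G hG f
  have hT' : Total (G ⊔ Submodule.span ℝ {f}) := by
    intro x hx
    obtain ⟨φ, h1, h2⟩ := hT x hx
    exact ⟨φ, hle h1, h2⟩
  have htop : G ⊔ Submodule.span ℝ {f} = ⊤ := by
    refine top_of_bw _ hT' (bw_of_unbounded hO F pt hpt _ hG' (fun c₀ => ?_))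
    obtain ⟨c, hc, -, t, ht⟩ := hA c₀
    refine ⟨c, ?_, hc⟩
    have h1 := ht (pt c) (hpt c)
    have ht0 : t ≠ 0 := by
      rintro rfl
      apply hfG
      simpa using h1
    have h2 : t • pt c ∈ G ⊔ Submodule.span ℝ {f} := by
      have := Submodule.sub_mem _ (hle h1) hfG'
      simpa using this
    have h3 := Submodule.smul_mem _ t⁻¹ h2
    rw [smul_smul, inv_mul_cancel₀ ht0, one_smul] at h3
    exact h3
  -- the coefficient functional
  have hdec : ∀ h : X →L[ℝ] ℝ, ∃ s : ℝ, h - s • f ∈ G := by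
    intro h
    have hh : h ∈ G ⊔ Submodule.span ℝ {f} := by rw [htop]; trivial
    obtain ⟨y, hy, z, hz, rfl⟩ := Submodule.mem_sup.1 hh
    obtain ⟨s, rfl⟩ := Submodule.mem_span_singleton.1 hz
    exact ⟨s, by simpa using hy⟩
  choose Φ hΦ using hdec
  have huniq : ∀ (h : X →L[ℝ] ℝ) (s : ℝ), h - s • f ∈ G → Φ h = s := by
    intro h s hs
    by_contra hns
    apply hfG
    have h1 := Submodule.sub_mem _ hs (hΦ h)
    have h2 : (Φ h - s) • f ∈ G := by
      have e : h - s • f - (h - Φ h • f) = (Φ h - s) • f := by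
        ext x
        simp only [sub_apply, smul_apply, smul_eq_mul]
        ring
      rwa [e] at h1
    have h3 := G.smul_mem (Φ h - s)⁻¹ h2
    rw [smul_smul, inv_mul_cancel₀ (sub_ne_zero.2 hns), one_smul] at h3
    exact h3
  have hΦ0 : Φ 0 = 0 := huniq 0 0 (by simp)
  have hΦc : ∀ (u : ℕ → X →L[ℝ] ℝ) (f₀ : X →L[ℝ] ℝ), WTend u f₀ →
      Tendsto (fun n => Φ (u n)) atTop (𝓝 (Φ f₀)) := by
    intro u f₀ hu
    have h1 : Tendsto (fun n => Φ (u n) - Φ f₀) atTop (𝓝 0) := by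
      refine coef_tendsto_zero G hG f hfG
        (fun n => (u n - Φ (u n) • f) - (f₀ - Φ f₀ • f)) _
        (fun n => Submodule.sub_mem _ (hΦ _) (hΦ _)) ?_
      intro x
      have h2 : Tendsto (fun n => u n x - f₀ x) atTop (𝓝 (f₀ x - f₀ x)) := (hu x).sub_const _
      rw [sub_self] at h2
      refine h2.congr (fun n => ?_)
      simp only [add_apply, sub_apply, smul_apply, smul_eq_mul]
      ring
    have h3 := h1.add_const (Φ f₀)
    simpa using h3
  obtain ⟨c, t, hct⟩ := ev_const_of_cont hO (fun a => Φ (pt a)) (by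
    intro b c hb hbc hcof
    exact hΦc _ _ (pt_wtend hO F b hb c hbc hcof _ (fun k => hpt _) _ (hpt c)))
  have ht0 : t = 0 := column_trick hO F pt hpt col hcol Φ hΦ0 hΦc c t hct
  obtain ⟨b, hb⟩ := hO.bdd {c, c1} (Set.toFinite _).countable
  have hbc : c < b := hb c (by simp)
  have hbc1 : c1 < b := hb c1 (by simp)
  have h1 := hΦ (pt b)
  have h2 : Φ (pt b) = t := hct b hbc.le
  rw [h2, ht0, zero_smul, sub_zero] at h1
  exact absurd hbc1 (not_lt.2 (hc1 b h1))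

end

theorem final :
    ¬ (∀ (X : Type) [NormedAddCommGroup X] [NormedSpace ℝ X] [CompleteSpace X],
      (∀ Γ : Set (X →L[ℝ] ℝ), (∀ x : X, x ≠ 0 → ∃ φ ∈ Γ, φ x ≠ 0) →
        MeasurableSpace.generateFrom
            {s : Set X | ∃ f : X → ℝ,
              @Continuous X ℝ
                (⨅ φ ∈ Γ, TopologicalSpace.induced (fun x => φ x) (inferInstance : TopologicalSpace ℝ)) _ f
              ∧ s = f ⁻¹' {0}} =
          MeasurableSpace.generateFrom
            {s : Set X | ∃ f : X → ℝ,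
              @Continuous X ℝ
                (⨅ φ : X →L[ℝ] ℝ, TopologicalSpace.induced (fun x => φ x) (inferInstance : TopologicalSpace ℝ)) _ f
              ∧ s = f ⁻¹' {0}})
      ↔
      (∀ M : Submodule ℝ (WeakDual ℝ X),
        IsSeqClosed (M : Set (WeakDual ℝ X)) → IsClosed (M : Set (WeakDual ℝ X)))) := by
  intro hall
  obtain ⟨Ω, iΩ, hO⟩ := exists_om1
  obtain ⟨g, hg⟩ := exists_g hO
  obtain ⟨X, i1, i2, i3, ⟨F⟩⟩ := exists_frame g hg
  choose pt hpt hptn using fun c => exists_pt hO F c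
  obtain ⟨M, hM1, hM2⟩ := not_Dprime hO F pt hpt hptn
  exact hM2 ((hall X).1 (fun Γ hΓ => D_of_T (fun G hG hT => T_main hO F G hG hT) Γ hΓ) M hM1)

end Pool.Agent.Helper695.PD
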