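import Pool.Agent.Helper695.PD.J6
import Pool.Agent.Helper695.PD.J8
import Pool.Agent.Helper695.PD.J9a
import Pool.Agent.Helper695.PD.J9b
import Pool.Agent.Helper695.PD.J9c

set_option autoImplicit false

open Filter Topology

namespace Pool.Agent.Helper695.PD

open Pool.Agent.Helper695.PD.J6
open Pool.Agent.Helper695.PD.J8
open Pool.Agent.Helper695.PD.J9a
open Pool.Agent.Helper695.PD.J9b
open Pool.Agent.Helper695.PD.J9c

section
variable {Ω : Type} [LinearOrder Ω] {X : Type} [NormedAddCommGroup X] [NormedSpace ℝ X]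

theorem dd_norm_le (F : Frame Ω X) (e : ℕ × ℕ) : ‖F.dd e‖ ≤ 1 := by
  refine F.norm_le _ 1 zero_le_one (fun e' => ?_)
  rw [F.co_dd]; split_ifs <;> simp

theorem cc_norm_le (F : Frame Ω X) (m : ℕ) : ‖F.cc m‖ ≤ 1 := by
  refine F.norm_le _ 1 zero_le_one (fun e' => ?_)
  rw [F.co_cc]; split_ifs <;> simp

theorem aa_norm_le (F : Frame Ω X) (a : Ω) : ‖F.aa a‖ ≤ 1 := by
  refine F.norm_le _ 1 zero_le_one (fun e' => ?_)
  rw [F.co_aa]; split_ifs <;> simp

theorem val_le {f : X →L[ℝ] ℝ} {C : ℝ} (hf : ‖f‖ ≤ C) {x : X} (hx : ‖x‖ ≤ 1) : |f x| ≤ C := by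
  have h := f.le_opNorm x
  rw [Real.norm_eq_abs] at h
  have h2 : ‖f‖ * ‖x‖ ≤ ‖f‖ * 1 := mul_le_mul_of_nonneg_left hx (norm_nonneg _)
  linarith

theorem ws (hO : IsOm1 Ω) [CompleteSpace X] (F : Frame Ω X) (u : ℕ → X →L[ℝ] ℝ) (C : ℝ)
    (hC : ∀ n, ‖u n‖ ≤ C) :
    ∃ φ : ℕ → ℕ, StrictMono φ ∧ ∃ f : X →L[ℝ] ℝ, WTend (fun n => u (φ n)) f ∧ ‖f‖ ≤ C := by
  classical
  have hb : ∀ n e, |u n (F.dd e)| ≤ C := fun n e => val_le (hC n) (dd_norm_le F e)
  obtain ⟨φ1, h1, hl⟩ := diag_subseq (fun k e => u k (F.dd e)) (fun _ => C) hb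
  choose l hl using hl
  have key : ∀ s : Finset (ℕ × ℕ), ∑ e ∈ s, |l e| ≤ C := by
    intro s
    have ht : Tendsto (fun k => ∑ e ∈ s, |u (φ1 k) (F.dd e)|) atTop (𝓝 (∑ e ∈ s, |l e|)) :=
      tendsto_finsetSum s (fun e _ => (hl e).abs)
    refine le_of_tendsto' ht (fun k => ?_)
    exact ((summable_coef F (u (φ1 k))).1.sum_le_tsum s (fun _ _ => abs_nonneg _)).trans
      ((summable_coef F _).2.trans (hC _))
  have hls : Summable (fun e => |l e|) := summable_of_sum_le (fun _ => abs_nonneg _) key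
  have hlb : ∑' e, |l e| ≤ C := hls.tsum_le_of_sum_le key
  -- the difference sequence and its positive and negative parts
  set lam : ℕ → ℕ × ℕ → ℝ := fun k e => u (φ1 k) (F.dd e) - l e with hlam
  have hlam0 : ∀ e, Tendsto (fun k => lam k e) atTop (𝓝 0) := by
    intro e
    have := (hl e).sub_const (l e)
    simpa [hlam] using this
  have hsb : ∀ k, Summable (fun e => |u (φ1 k) (F.dd e)| + |l e|) := fun k =>
    (summable_coef F (u (φ1 k))).1.add hls
  have hsbt : ∀ k, ∑' e, (|u (φ1 k) (F.dd e)| + |l e|) ≤ C + C := by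
    intro k
    rw [(summable_coef F (u (φ1 k))).1.tsum_add hls]
    exact add_le_add ((summable_coef F _).2.trans (hC _)) hlb
  set lp : ℕ → ℕ × ℕ → ℝ := fun k e => max (lam k e) 0 with hlp
  set ln : ℕ → ℕ × ℕ → ℝ := fun k e => max (-(lam k e)) 0 with hln
  have hlp0 : ∀ k e, 0 ≤ lp k e := fun k e => le_max_right _ _
  have hln0 : ∀ k e, 0 ≤ ln k e := fun k e => le_max_right _ _
  have habs : ∀ k e, |lam k e| ≤ |u (φ1 k) (F.dd e)| + |l e| := fun k e => abs_sub _ _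
  have hlple : ∀ k e, lp k e ≤ |u (φ1 k) (F.dd e)| + |l e| := fun k e =>
    (max_le (le_abs_self _) (abs_nonneg _)).trans (habs k e)
  have hlnle : ∀ k e, ln k e ≤ |u (φ1 k) (F.dd e)| + |l e| := fun k e =>
    (max_le (neg_le_abs _) (abs_nonneg _)).trans (habs k e)
  have hlps : ∀ k, Summable (lp k) := fun k => Summable.of_nonneg_of_le (hlp0 k) (hlple k) (hsb k)
  have hlns : ∀ k, Summable (ln k) := fun k => Summable.of_nonneg_of_le (hln0 k) (hlnle k) (hsb k)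
  have hlpt : ∀ k, ∑' e, lp k e ≤ C + C := fun k =>
    ((hlps k).tsum_le_tsum (hlple k) (hsb k)).trans (hsbt k)
  have hlnt : ∀ k, ∑' e, ln k e ≤ C + C := fun k =>
    ((hlns k).tsum_le_tsum (hlnle k) (hsb k)).trans (hsbt k)
  have hlpl : ∀ e, Tendsto (fun k => lp k e) atTop (𝓝 0) := by
    intro e
    have := (hlam0 e).max (tendsto_const_nhds (x := (0:ℝ)))
    simpa using this
  have hlnl : ∀ e, Tendsto (fun k => ln k e) atTop (𝓝 0) := by
    intro e
    have := (hlam0 e).neg.max (tendsto_const_nhds (x := (0:ℝ)))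
    simpa using this
  obtain ⟨φ2, h2, c1, t1, hP⟩ := pos_subseq hO F.g F.g_lt lp hlp0 hlps (C + C) hlpt hlpl
  obtain ⟨φ3, h3, c2, t2, hQ⟩ := pos_subseq hO F.g F.g_lt (fun k => ln (φ2 k))
    (fun k => hln0 _) (fun k => hlns _) (C + C) (fun k => hlnt _)
    (fun e => (hlnl e).comp h2.tendsto_atTop)
  have hP' : ∀ a, c1 ≤ a → Tendsto (fun k => ∑' e, (if e.2 ≤ F.g a e.1 then
      lp (φ2 (φ3 k)) e else 0)) atTop (𝓝 t1) := fun a ha => (hP a ha).comp h3.tendsto_atTop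
  -- functionals
  obtain ⟨Li, -, -, hLid, -⟩ := exists_l1_part F l hls
  have hLp : ∀ k, ∃ L : X →L[ℝ] ℝ, (∀ e, L (F.dd e) = lp (φ2 (φ3 k)) e) ∧
      (∀ a, L (F.aa a) = ∑' e, (if e.2 ≤ F.g a e.1 then lp (φ2 (φ3 k)) e else 0)) := by
    intro k
    obtain ⟨L, -, -, h, h'⟩ := exists_l1_part F (lp (φ2 (φ3 k))) (hlps _).abs
    exact ⟨L, h, h'⟩
  have hLn : ∀ k, ∃ L : X →L[ℝ] ℝ, (∀ e, L (F.dd e) = ln (φ2 (φ3 k)) e) ∧
      (∀ a, L (F.aa a) = ∑' e, (if e.2 ≤ F.g a e.1 then ln (φ2 (φ3 k)) e else 0)) := by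
    intro k
    obtain ⟨L, -, -, h, h'⟩ := exists_l1_part F (ln (φ2 (φ3 k))) (hlns _).abs
    exact ⟨L, h, h'⟩
  choose Lp hLpd hLpa using hLp
  choose Ln hLnd hLna using hLn
  have hz : ∀ k, ∃ (c : Ω) (t : ℝ), ∀ a, c ≤ a →
      (u (φ1 (φ2 (φ3 k))) - Li - Lp k + Ln k) (F.aa a) = t := by
    intro k
    refine ev_const hO F _ (fun e => ?_)
    have : u (φ1 (φ2 (φ3 k))) (F.dd e) - l e = lam (φ2 (φ3 k)) e := rfl
    simp only [add_apply, sub_apply, hLid, hLpd, hLnd]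
    rw [this]
    simp only [hlp, hln]
    rcases le_total 0 (lam (φ2 (φ3 k)) e) with h | h
    · rw [max_eq_left h, max_eq_right (by linarith)]; ring
    · rw [max_eq_right h, max_eq_left (by linarith)]; ring
  choose c3 t3 hz using hz
  obtain ⟨c, hc⟩ := hO.bdd (Set.range c3 ∪ {c1, c2})
    ((Set.countable_range _).union (Set.toFinite _).countable)
  have hc3 : ∀ k, c3 k ≤ c := fun k => (hc _ (Or.inl ⟨k, rfl⟩)).le
  have hc1 : c1 ≤ c := (hc _ (Or.inr (by simp))).le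
  have hc2 : c2 ≤ c := (hc _ (Or.inr (by simp))).le
  have hcnt : Countable {a : Ω // a ≤ c} := by
    have : (Set.Iic c).Countable := by
      rw [← Set.Iio_insert]
      exact (hO.cnt c).insert c
    exact this.to_subtype
  obtain ⟨φ4, h4, hv⟩ := diag_subseq (ι := {a : Ω // a ≤ c} ⊕ ℕ)
    (fun k i => Sum.elim (fun a => u (φ1 (φ2 (φ3 k))) (F.aa a.1))
      (fun m => u (φ1 (φ2 (φ3 k))) (F.cc m)) i) (fun _ => C) (by
        rintro k (a | m)
        · exact val_le (hC _) (aa_norm_le F _)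
        · exact val_le (hC _) (cc_norm_le F _))
  have hva : ∀ a, ∃ t : ℝ, Tendsto (fun k => u (φ1 (φ2 (φ3 (φ4 k)))) (F.aa a)) atTop (𝓝 t) := by
    intro a
    rcases le_total a c with h | h
    · obtain ⟨t, ht⟩ := hv (Sum.inl ⟨a, h⟩)
      exact ⟨t, ht⟩
    · obtain ⟨t, ht⟩ := hv (Sum.inl ⟨c, le_refl c⟩)
      simp only [Sum.elim_inl] at ht
      refine ⟨t + (Li (F.aa a) - Li (F.aa c)) + (t1 - t1) - (t2 - t2), ?_⟩
      have e1 : ∀ k, u (φ1 (φ2 (φ3 k))) (F.aa a) = u (φ1 (φ2 (φ3 k))) (F.aa c) +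
          (Li (F.aa a) - Li (F.aa c)) + (Lp k (F.aa a) - Lp k (F.aa c)) -
          (Ln k (F.aa a) - Ln k (F.aa c)) := by
        intro k
        have h5 := hz k a ((hc3 k).trans h)
        have h6 := hz k c (hc3 k)
        simp only [add_apply, sub_apply] at h5 h6
        linarith
      simp_rw [e1]
      have hp : ∀ b, c ≤ b → Tendsto (fun k => Lp (φ4 k) (F.aa b)) atTop (𝓝 t1) := by
        intro b hb'
        have := (hP' b (hc1.trans hb')).comp h4.tendsto_atTop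
        refine this.congr (fun k => ?_)
        simp only [Function.comp_apply, hLpa]
      have hn : ∀ b, c ≤ b → Tendsto (fun k => Ln (φ4 k) (F.aa b)) atTop (𝓝 t2) := by
        intro b hb'
        have := (hQ b (hc2.trans hb')).comp h4.tendsto_atTop
        refine this.congr (fun k => ?_)
        simp only [Function.comp_apply, hLna]
      exact ((ht.add_const _).add ((hp a h).sub (hp c le_rfl))).sub ((hn a h).sub (hn c le_rfl))
  have hvc : ∀ m, ∃ t : ℝ, Tendsto (fun k => u (φ1 (φ2 (φ3 (φ4 k)))) (F.cc m)) atTop (𝓝 t) := by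
    intro m
    obtain ⟨t, ht⟩ := hv (Sum.inr m)
    exact ⟨t, ht⟩
  choose la hla using hva
  choose lc hlc using hvc
  have hld : ∀ e, Tendsto (fun k => u (φ1 (φ2 (φ3 (φ4 k)))) (F.dd e)) atTop (𝓝 (l e)) :=
    fun e => (hl e).comp ((h2.comp (h3.comp h4)).tendsto_atTop)
  obtain ⟨f, hf, hfC, -⟩ := wtend_of_gen F (fun k => u (φ1 (φ2 (φ3 (φ4 k))))) C
    (fun k => hC _) l lc la hld hlc hla
  exact ⟨fun k => φ1 (φ2 (φ3 (φ4 k))), h1.comp (h2.comp (h3.comp h4)), f, hf, hfC⟩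

end

end Pool.Agent.Helper695.PD
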